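import Pool.Agent.Q5.MS.Riesz

/-!
# The Riesz law of a system of primes
-/

set_option autoImplicit false

open MeasureTheory Filter Topology Set Complex
open Pool.Agent.TH942.ES
open Pool.Agent.TH942.RZ (rzw)
open Pool.Agent.TH270.RS (Mw Lw Ad Ad_rzw)

namespace Pool.Agent.Q5.MS

variable {X : Type} {d : ℕ} {N : X → ℕ} {α : X → Fin d → ℂ} {Ψ : ℂ → ℂ} {m : ℕ}

theorem loglog_tendsto : Tendsto (fun Y : ℝ => Real.log (Real.log Y)) atTop atTop :=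
  Real.tendsto_log_atTop.comp Real.tendsto_log_atTop

/-- bounded differences do not change the limit of the quotient by `log log` -/
theorem quot_of_close {f g : ℝ → ℝ} {l M : ℝ} (h : ∀ᶠ Y : ℝ in atTop, |f Y - g Y| ≤ M)
    (hg : Tendsto (fun Y : ℝ => g Y / Real.log (Real.log Y)) atTop (𝓝 l)) :
    Tendsto (fun Y : ℝ => f Y / Real.log (Real.log Y)) atTop (𝓝 l) := by
  have h1 : Tendsto (fun Y : ℝ => (f Y - g Y) / Real.log (Real.log Y)) atTop (𝓝 0) := by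
    have h2 : Tendsto (fun Y : ℝ => M / Real.log (Real.log Y)) atTop (𝓝 0) :=
      tendsto_const_nhds.div_atTop loglog_tendsto
    refine squeeze_zero_norm' ?_ h2
    filter_upwards [h, loglog_tendsto.eventually_gt_atTop 0] with Y h3 h4
    rw [norm_div, Real.norm_eq_abs, Real.norm_eq_abs, abs_of_pos h4]
    gcongr
  have h2 := h1.add hg
  rw [zero_add] at h2
  refine h2.congr fun Y => ?_
  rw [← add_div, sub_add_cancel]

/-- the Riesz means of the sum over the prime powers -/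
theorem mw_lim (H : Lw N α Ψ m) (hne : ∀ s : ℂ, 0 < s.re → Ψ s ≠ 0) {C : ℝ} {κ : ℕ}
    (hgrow : ∀ s : ℂ, 0 < s.re → ‖Ψ s‖ ≤ C * (1 + ‖s‖) ^ κ * (1 + 1 / s.re) ^ κ) {k : ℝ}
    (hk : 0 < k) : ∃ M : ℝ, ∀ᶠ Y : ℝ in atTop,
      |Mw N α (rzw k) 1 Y + m * Real.log (Real.log Y)| ≤ M := by
  obtain ⟨A, hA, -, h⟩ := H.riesz hne hgrow
  have h1 := h k hk
  set B : ℝ := A * Real.exp (m * (deriv Real.Gamma (k + 1) / Real.Gamma (k + 1))) with hB
  have hB0 : 0 < B := by positivity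
  have h2 := h1.log hB0.ne'
  have h3 : ∀ᶠ Y : ℝ in atTop, |Real.log (Real.exp (Mw N α (rzw k) 1 Y) * Real.log Y ^ m)
      - Real.log B| < 1 := by
    have := (Metric.tendsto_nhds.1 h2) 1 one_pos
    simpa [Real.dist_eq] using this
  refine ⟨|Real.log B| + 1, ?_⟩
  filter_upwards [h3, Real.tendsto_log_atTop.eventually_gt_atTop 0] with Y h4 h5
  rw [Real.log_mul (Real.exp_pos _).ne' (pow_pos h5 m).ne', Real.log_exp, Real.log_pow] at h4
  have h6 := abs_sub_abs_le_abs_sub (Mw N α (rzw k) 1 Y + m * Real.log (Real.log Y)) (Real.log B)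
  linarith

theorem riesz_law (H : Lw N α Ψ m) {C : ℝ} {κ : ℕ}
    (hgrow : ∀ s : ℂ, 0 < s.re → ‖Ψ s‖ ≤ C * (1 + ‖s‖) ^ κ * (1 + 1 / s.re) ^ κ) (ρ : ℝ) :
    List.TFAE [
      (∀ s : ℂ, 0 < s.re → Ψ s ≠ 0) ∧ ρ = m,
      ∀ k : ℝ, 0 < k → ∃ M : ℝ, ∀ᶠ Y : ℝ in atTop, |Sv N α k Y - ρ * Real.log (Real.log Y)| ≤ M,
      ∃ k : ℝ, 0 < k ∧
        Tendsto (fun Y : ℝ => Sv N α k Y / Real.log (Real.log Y)) atTop (𝓝 ρ)] := by
  tfae_have 1 → 2 := by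
    rintro ⟨hne, rfl⟩ k hk
    obtain ⟨M₁, h1⟩ := mw_lim H hne hgrow hk
    obtain ⟨M₂, h2⟩ := riesz_close H.E hk
    refine ⟨M₁ + M₂, ?_⟩
    filter_upwards [h1, eventually_ge_atTop (Real.exp 1)] with Y h3 h4
    have h5 := h2 Y h4
    have h6 : Sv N α k Y - m * Real.log (Real.log Y) = (Sv N α k Y + Mw N α (rzw k) 1 Y) -
        (Mw N α (rzw k) 1 Y + m * Real.log (Real.log Y)) := by ring
    rw [h6]
    refine (abs_sub _ _).trans ?_
    linarith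
  tfae_have 2 → 3 := by
    intro h
    obtain ⟨M, hM⟩ := h 1 one_pos
    refine ⟨1, one_pos, quot_of_close (g := fun Y => ρ * Real.log (Real.log Y)) hM ?_⟩
    refine tendsto_const_nhds.congr' ?_
    filter_upwards [loglog_tendsto.eventually_gt_atTop 0] with Y hY
    field_simp
  tfae_have 3 → 1 := by
    rintro ⟨k, hk, h⟩
    obtain ⟨M₂, h2⟩ := riesz_close H.E hk
    refine H.of_lim (Ad_rzw hk) ?_
    refine quot_of_close (g := fun Y => -Sv N α k Y) (M := M₂) ?_ ?_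
    · filter_upwards [eventually_ge_atTop (Real.exp 1)] with Y h4
      have h5 := h2 Y h4
      rwa [sub_neg_eq_add, add_comm]
    · refine h.neg.congr fun Y => ?_
      ring
  tfae_finish

theorem riesz_upper (H : Lw N α Ψ m) {C : ℝ} {κ : ℕ}
    (hgrow : ∀ s : ℂ, 0 < s.re → ‖Ψ s‖ ≤ C * (1 + ‖s‖) ^ κ * (1 + 1 / s.re) ^ κ) (ρ : ℝ) :
    List.TFAE [
      (∀ s : ℂ, 0 < s.re → Ψ s ≠ 0) ∧ (m : ℝ) ≤ ρ,
      ∀ k : ℝ, 0 < k → ∃ M : ℝ, ∀ᶠ Y : ℝ in atTop, Sv N α k Y ≤ ρ * Real.log (Real.log Y) + M,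
      ∃ k : ℝ, 0 < k ∧ ∀ ε : ℝ, 0 < ε → ∀ᶠ Y : ℝ in atTop,
        Sv N α k Y ≤ (ρ + ε) * Real.log (Real.log Y)] := by
  tfae_have 1 → 2 := by
    rintro ⟨hne, hm⟩ k hk
    have t : ((∀ s : ℂ, 0 < s.re → Ψ s ≠ 0) ∧ (m : ℝ) = m) ↔ ∀ k : ℝ, 0 < k → ∃ M : ℝ,
        ∀ᶠ Y : ℝ in atTop, |Sv N α k Y - (m : ℝ) * Real.log (Real.log Y)| ≤ M :=
      (riesz_law H hgrow (m : ℝ)).out 0 1
    obtain ⟨M, hM⟩ := t.1 ⟨hne, rfl⟩ k hk
    refine ⟨M, ?_⟩
    filter_upwards [hM, loglog_tendsto.eventually_gt_atTop 0] with Y h1 h2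
    have h3 := (abs_le.1 h1).2
    nlinarith
  tfae_have 2 → 3 := by
    intro h
    obtain ⟨M, hM⟩ := h 1 one_pos
    refine ⟨1, one_pos, fun ε hε => ?_⟩
    filter_upwards [hM, loglog_tendsto.eventually_ge_atTop (M / ε)] with Y h1 h2
    rw [div_le_iff₀ hε] at h2
    linarith
  tfae_have 3 → 1 := by
    rintro ⟨k, hk, h⟩
    obtain ⟨M₂, h2⟩ := riesz_close H.E hk
    refine H.of_lower (Ad_rzw hk) (fun u _ _ => rzw_nonneg k u) fun ε hε => ?_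
    filter_upwards [h (ε / 2) (half_pos hε), eventually_ge_atTop (Real.exp 1),
      loglog_tendsto.eventually_ge_atTop (M₂ / (ε / 2))] with Y h3 h4 h5
    have h6 := (abs_le.1 (h2 Y h4)).1
    rw [div_le_iff₀ (half_pos hε)] at h5
    linarith
  tfae_finish

end Pool.Agent.Q5.MS
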