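import Pool.Agent.Q5.MS.Window

/-!
# The windows `(x^l, x]`: continuation, and the order from the uniform bound
-/

set_option autoImplicit false

open MeasureTheory Filter Topology Set Complex
open Pool.Agent.TH942.ES
open Pool.Agent.TH942.SL
open Pool.Agent.TH270.MS
open Pool.Agent.TH942.LS (Dat)
open Pool.Agent.TH270.RS (cS' dat' DD_neg)
open Pool.Agent.W263.BSD (LInt lap lapC lapC_differentiableAt)
open scoped ENNReal

namespace Pool.Agent.Q5.MS

section Dirichlet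

variable {lam c : ℕ → ℝ} {δ σ : ℝ}

/-- bounds for the means give the convergence of the Laplace integral -/
theorem lint_of_mean {f : ℝ → ℝ} (hf : Measurable f) {C σ : ℝ}
    (hC : ∀ u, |f u| ≤ C * Real.exp (σ * u))
    (h : ∀ ε : ℝ, 0 < ε → ∃ B : ℝ, ∀ᶠ T : ℝ in atTop,
      ∫ u in (1 : ℝ)..T, |f u| ≤ B * Real.exp (ε * T)) {x : ℝ} (hx : 0 < x) : LInt f x := by
  have hi : ∀ a b : ℝ, IntegrableOn f (Ioc a b) := by
    intro a b
    have h1 : IntegrableOn (fun u : ℝ => C * Real.exp (σ * u)) (Ioc a b) :=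
      (Continuous.integrableOn_Icc (by fun_prop)).mono_set Ioc_subset_Icc_self
    exact h1.mono' hf.aestronglyMeasurable (Eventually.of_forall fun u => hC u)
  obtain ⟨B, hB⟩ := h (x / 2) (by positivity)
  obtain ⟨T₀, hT₀⟩ := hB.exists_forall_of_atTop
  obtain ⟨n₀, hn₀⟩ := exists_nat_ge (max T₀ 1)
  have hn1 : (1 : ℝ) ≤ n₀ := (le_max_right _ _).trans hn₀
  have hnT : T₀ ≤ n₀ := (le_max_left _ _).trans hn₀
  have hB0 : 0 ≤ B := by
    have h1 := hT₀ n₀ hnT
    have h2 : 0 ≤ ∫ u in (1 : ℝ)..n₀, |f u| :=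
      intervalIntegral.integral_nonneg hn1 fun u _ => abs_nonneg _
    have h3 := h2.trans h1
    exact nonneg_of_mul_nonneg_left h3 (Real.exp_pos _)
  have hm : Measurable fun u : ℝ => f u * Real.exp (-(x * u)) := hf.mul (by fun_prop)
  unfold LInt
  have hun : Ioi (0 : ℝ) = Ioc 0 (n₀ : ℝ) ∪ ⋃ k : ℕ, Ioc ((n₀ : ℝ) + k) ((n₀ : ℝ) + (k + 1)) := by
    ext u
    simp only [mem_Ioi, mem_union, mem_Ioc, mem_iUnion]
    constructor
    · intro hu
      rcases le_or_gt u n₀ with h1 | h1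
      · exact Or.inl ⟨hu, h1⟩
      · right
        obtain ⟨k, hk1, hk2⟩ : ∃ k : ℕ, (k : ℝ) < u - n₀ ∧ u - n₀ ≤ k + 1 := by
          have h2 : 0 < u - n₀ := by linarith
          refine ⟨⌈u - n₀⌉₊ - 1, ?_, ?_⟩
          · have h3 : 0 < ⌈u - n₀⌉₊ := Nat.ceil_pos.2 h2
            have h4 : ⌈u - n₀⌉₊ - 1 < ⌈u - n₀⌉₊ := by omega
            exact Nat.lt_ceil.1 h4
          · have h3 : 0 < ⌈u - n₀⌉₊ := Nat.ceil_pos.2 h2
            have h4 : ((⌈u - n₀⌉₊ - 1 : ℕ) : ℝ) + 1 = ⌈u - n₀⌉₊ := by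
              rw [Nat.cast_sub h3]
              push_cast
              ring
            rw [h4]
            exact Nat.le_ceil _
        exact ⟨k, by linarith, by linarith⟩
    · rintro (h1 | ⟨k, h1, _⟩)
      · exact h1.1
      · have : (0 : ℝ) ≤ k := Nat.cast_nonneg k
        linarith
  rw [hun]
  refine IntegrableOn.union ?_ ⟨hm.aestronglyMeasurable, ?_⟩
  · have h1 : IntegrableOn (fun u : ℝ => C * Real.exp (σ * u) * Real.exp (-(x * u)))
        (Ioc 0 (n₀ : ℝ)) :=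
      (Continuous.integrableOn_Icc (by fun_prop)).mono_set Ioc_subset_Icc_self
    refine h1.mono' hm.aestronglyMeasurable (Eventually.of_forall fun u => ?_)
    rw [norm_mul, Real.norm_eq_abs, Real.norm_of_nonneg (Real.exp_pos _).le]
    exact mul_le_mul_of_nonneg_right (hC u) (Real.exp_pos _).le
  · unfold HasFiniteIntegral
    refine lt_of_le_of_lt (lintegral_iUnion_le _ _) ?_
    have hk : ∀ k : ℕ, ∫⁻ u in Ioc ((n₀ : ℝ) + k) ((n₀ : ℝ) + (k + 1)),
        ‖f u * Real.exp (-(x * u))‖ₑ ≤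
        ENNReal.ofReal (B * Real.exp (x / 2 * (n₀ + 1)) * Real.exp (-(x * n₀)) *
          Real.exp (-(x / 2)) ^ k) := by
      intro k
      have hk0 : (0 : ℝ) ≤ k := Nat.cast_nonneg k
      set A : ℝ := (n₀ : ℝ) + k with hA
      have hA1 : 1 ≤ A := by linarith
      have e1 : ∀ u ∈ Ioc A ((n₀ : ℝ) + (k + 1)), ‖f u * Real.exp (-(x * u))‖ₑ ≤
          ENNReal.ofReal (Real.exp (-(x * A))) * ‖f u‖ₑ := by
        intro u hu
        rw [enorm_mul, mul_comm]
        refine mul_le_mul' ?_ le_rfl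
        rw [← ofReal_norm, Real.norm_of_nonneg (Real.exp_pos _).le]
        apply ENNReal.ofReal_le_ofReal
        apply Real.exp_le_exp.2
        have := mul_le_mul_of_nonneg_left hu.1.le hx.le
        linarith
      refine (setLIntegral_mono' measurableSet_Ioc e1).trans ?_
      rw [lintegral_const_mul' _ _ ENNReal.ofReal_ne_top]
      have e2 : ∫⁻ u in Ioc A ((n₀ : ℝ) + (k + 1)), ‖f u‖ₑ ≤
          ENNReal.ofReal (B * Real.exp (x / 2 * ((n₀ : ℝ) + (k + 1)))) := by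
        have h2 : ∫⁻ u in Ioc A ((n₀ : ℝ) + (k + 1)), ‖f u‖ₑ ≤
            ∫⁻ u in Ioc 1 ((n₀ : ℝ) + (k + 1)), ‖f u‖ₑ :=
          lintegral_mono_set (Ioc_subset_Ioc_left hA1)
        refine h2.trans ?_
        have h3 : (1 : ℝ) ≤ (n₀ : ℝ) + (k + 1) := by linarith
        have h1 : ∫⁻ u in Ioc 1 ((n₀ : ℝ) + (k + 1)), ‖f u‖ₑ =
            ENNReal.ofReal (∫ u in (1 : ℝ)..((n₀ : ℝ) + (k + 1)), |f u|) := by
          rw [intervalIntegral.integral_of_le h3, ofReal_integral_eq_lintegral_ofReal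
            (hi 1 _).abs (Eventually.of_forall fun u => abs_nonneg _)]
          refine lintegral_congr fun u => ?_
          rw [← Real.norm_eq_abs, ofReal_norm]
        rw [h1]
        exact ENNReal.ofReal_le_ofReal (hT₀ _ (by linarith))
      refine (mul_le_mul' le_rfl e2).trans ?_
      rw [← ENNReal.ofReal_mul (Real.exp_pos _).le]
      apply ENNReal.ofReal_le_ofReal
      rw [← Real.exp_nat_mul]
      have e3 : Real.exp (-(x * A)) * (B * Real.exp (x / 2 * ((n₀ : ℝ) + (k + 1)))) =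
          B * Real.exp (-(x * A) + x / 2 * ((n₀ : ℝ) + (k + 1))) := by
        rw [Real.exp_add]
        ring
      have e4 : B * Real.exp (x / 2 * (n₀ + 1)) * Real.exp (-(x * n₀)) *
          Real.exp (k * -(x / 2)) =
          B * Real.exp (x / 2 * (n₀ + 1) + -(x * n₀) + k * -(x / 2)) := by
        rw [Real.exp_add, Real.exp_add]
        ring
      rw [e3, e4]
      refine le_of_eq ?_
      congr 2
      rw [hA]
      ring
    refine lt_of_le_of_lt (ENNReal.tsum_le_tsum hk) ?_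
    have hs : Summable fun k : ℕ => B * Real.exp (x / 2 * (n₀ + 1)) * Real.exp (-(x * n₀)) *
        Real.exp (-(x / 2)) ^ k := by
      refine (summable_geometric_of_lt_one (Real.exp_pos _).le ?_).mul_left _
      rw [Real.exp_lt_one_iff]
      linarith
    rw [← ENNReal.ofReal_tsum_of_nonneg (fun k => by positivity) hs]
    exact ENNReal.ofReal_lt_top

/-- convergence of the Laplace integrals of one window is convergence for the series -/
theorem lint_win (D : Dat lam c δ σ) {l : ℝ} (hl : 0 < l) (hl1 : l < 1)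
    (h : ∀ ε : ℝ, 0 < ε → ∃ B : ℝ, ∀ᶠ T : ℝ in atTop,
      ∫ u in (1 : ℝ)..T, |Wn lam c 0 l u| ≤ B * Real.exp (ε * T)) {x : ℝ} (hx : 0 < x) :
    LInt (Er lam c 0 0) x := by
  refine lint_all D 0 0 hl hl1 (fun x hx => ?_) hx
  obtain ⟨C₁, -, hb⟩ := wn_le (c := c) D 0 hl1
  refine lint_of_mean ((wn_meas D 0 l).indicator measurableSet_Ioi) hb (fun ε hε => ?_) hx
  obtain ⟨B, hB⟩ := h ε hε
  refine ⟨B, ?_⟩
  filter_upwards [hB, eventually_ge_atTop 1] with T h1 h2
  have h3 : ∫ u in (1 : ℝ)..T, |(Ioi (0 : ℝ)).indicator (Wn lam c 0 l) u| =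
      ∫ u in (1 : ℝ)..T, |Wn lam c 0 l u| := by
    refine intervalIntegral.integral_congr fun u hu => ?_
    rw [uIcc_of_le h2] at hu
    have : u ∈ Ioi (0 : ℝ) := lt_of_lt_of_le one_pos hu.1
    simp only [indicator_of_mem this]
  rw [h3]
  exact h1

/-- the continuation of the exponential -/
theorem cont_of_lint (D : Dat lam c δ σ) (h : ∀ x : ℝ, 0 < x → LInt (Er lam c 0 0) x) :
    ∃ F : ℂ → ℂ, (∀ s : ℂ, 0 < s.re → DifferentiableAt ℂ F s ∧ F s ≠ 0) ∧
      ∀ s : ℂ, σ < s.re → F s = exp (-DD lam c s) := by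
  refine ⟨fun s => exp (-(s * lapC (Er lam c 0 0) s)), fun s hs => ⟨?_, exp_ne_zero _⟩,
    fun s hs => ?_⟩
  · exact (differentiableAt_id.mul
      (lapC_differentiableAt (er_meas D 0 0) (fun w hw => h w hw) hs)).neg.cexp
  · have hs0 : s ≠ 0 := by
      rintro rfl
      have := D.σ0
      simp at hs
      linarith
    simp only
    rw [er_lapC D 0 0 s, er_lap D 0 0 hs]
    congr 2
    rw [Complex.ofReal_zero, zero_mul, add_zero, sub_zero]
    field_simp

end Dirichlet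

section System

variable {X : Type} {d : ℕ} {N : X → ℕ} {α : X → Fin d → ℂ} {Ψ G₀ : ℂ → ℂ} {k κ : ℕ} {η C : ℝ}

theorem bm_pl_rpow' (E : Sys N α) {l : ℝ} (hl1 : l ≤ 1) :
    BM fun y => Pl N α (y ^ l) := by
  have := E.cnt
  obtain ⟨e, he⟩ := Countable.exists_injective_nat (X × ℕ)
  have D := dat' E he
  set lam := lamS N e
  set c := cS' N α e
  have hm : Measurable fun y : ℝ => -Sh lam c (l * Real.log y) :=
    ((sh_meas D).comp (Real.measurable_log.const_mul l)).neg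
  have heq : ∀ y : ℝ, 0 < y → -Sh lam c (l * Real.log y) = Pl N α (y ^ l) := by
    intro y hy
    rw [sh_eq E he, Real.rpow_def_of_pos hy, mul_comm l, neg_neg]
  refine ⟨?_, fun Y => ?_⟩
  · refine hm.aestronglyMeasurable.congr ?_
    filter_upwards [ae_restrict_mem measurableSet_Ioi] with y hy
    exact heq y ((Real.exp_pos 1).trans hy)
  · set S₀ : ℝ := ∑' n, |c n| * Real.exp (-(1 * lam n)) with hS₀
    have h0 : 0 ≤ S₀ := tsum_nonneg fun n => by positivity
    refine ⟨Real.exp (1 * Real.log Y) * S₀, fun y h1 h2 => ?_⟩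
    have hy0 : 0 < y := (Real.exp_pos 1).trans_le h1
    show |Pl N α (y ^ l)| ≤ _
    rw [← heq y hy0, abs_neg]
    refine (sh_le D _).trans ?_
    rw [← hS₀]
    refine mul_le_mul_of_nonneg_right (Real.exp_le_exp.2 ?_) h0
    rw [one_mul, one_mul]
    have h3 := one_le_log h1
    have h4 := Real.log_le_log hy0 h2
    nlinarith

theorem bm_pl' (E : Sys N α) : BM (Pl N α) := by
  have h := bm_pl_rpow' E le_rfl
  simpa only [Real.rpow_one] using h

theorem bm_wl (E : Sys N α) (ρ : ℝ) {l : ℝ} (hl1 : l < 1) : BM (WL N α ρ l) :=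
  ((bm_pl' E).sub (bm_pl_rpow' E hl1.le)).sub (BM.const _)

theorem bm_wv (E : Sys N α) (ρ : ℝ) {l : ℝ} (hl1 : l < 1) : BM (WV N α ρ l) :=
  ((bm_pv E).sub (bm_pv_rpow E hl1.le)).add (BM.const _)

/-- the difference of the two windows: bounded by `2 M` from `e^(1/l)` on, `M` independent of `l` -/
theorem close_w2 (E : Sys N α) : ∃ M : ℝ, 0 ≤ M ∧ ∀ ρ l : ℝ, 0 < l → l < 1 →
    (∀ y : ℝ, Real.exp (1 / l) ≤ y → |WV N α ρ l y + WL N α ρ l y| ≤ 2 * M) ∧
    ∃ K : ℝ, ∀ y : ℝ, Real.exp 1 ≤ y → |WV N α ρ l y + WL N α ρ l y| ≤ K := by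
  obtain ⟨M, hM⟩ := close E
  have hM0 : 0 ≤ M := (abs_nonneg _).trans (hM _ le_rfl)
  refine ⟨M, hM0, fun ρ l hl hl1 => ?_⟩
  have h1 : ∀ y : ℝ, WV N α ρ l y + WL N α ρ l y =
      (Pv N α y + Pl N α y) - (Pv N α (y ^ l) + Pl N α (y ^ l)) := by
    intro y
    unfold WV WL
    ring
  have hbig : ∀ y : ℝ, Real.exp (1 / l) ≤ y → |WV N α ρ l y + WL N α ρ l y| ≤ 2 * M := by
    intro y h
    have hy0 : 0 < y := (Real.exp_pos _).trans_le h
    have h5 : 1 / l ≤ Real.log y := (Real.le_log_iff_exp_le hy0).2 h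
    have h4 : Real.exp 1 ≤ y ^ l := by
      rw [Real.rpow_def_of_pos hy0]
      apply Real.exp_le_exp.2
      rw [div_le_iff₀ hl] at h5
      exact h5
    have h6 : Real.exp 1 ≤ y := by
      refine le_trans (Real.exp_le_exp.2 ?_) h
      rw [le_div_iff₀ hl]
      linarith
    rw [h1]
    refine (abs_sub _ _).trans ?_
    linarith [hM y h6, hM _ h4]
  refine ⟨hbig, ?_⟩
  obtain ⟨M', hM'⟩ := ((bm_pv_rpow E hl1.le).add (bm_pl_rpow' E hl1.le)).2 (Real.exp (1 / l))
  refine ⟨2 * M + |M'|, fun y hy => ?_⟩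
  rcases le_or_gt y (Real.exp (1 / l)) with h | h
  · rw [h1]
    refine (abs_sub _ _).trans ?_
    have h2 := hM' y hy h
    have h3 := le_abs_self M'
    have h4 := hM y hy
    linarith
  · have := hbig y h.le
    linarith [abs_nonneg M']

/-- means of functions with bounded difference -/
theorem mean_close {f g : ℝ → ℝ} (hf : BM f) (hg : BM g) {K : ℝ}
    (h : ∀ y : ℝ, Real.exp 1 ≤ y → |f y + g y| ≤ K) {Y : ℝ} (hY : Real.exp 1 ≤ Y) :
    ∫ y in Real.exp 1..Y, |f y| / y ≤ (∫ y in Real.exp 1..Y, |g y| / y) + K * (Real.log Y - 1) := by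
  have i1 := hf.li.abs.div Y hY
  have i2 := hg.li.abs.div Y hY
  have i3 : IntervalIntegrable (fun y : ℝ => K * (1 / y)) volume (Real.exp 1) Y := by
    refine ContinuousOn.intervalIntegrable ?_
    rw [uIcc_of_le hY]
    refine continuousOn_const.mul (continuousOn_const.div continuousOn_id fun y hy => ?_)
    exact ((Real.exp_pos 1).trans_le hy.1).ne'
  rw [← int_inv hY, ← intervalIntegral.integral_const_mul, ← intervalIntegral.integral_add i2 i3]
  refine intervalIntegral.integral_mono_on hY i1 (i2.add i3) fun y hy => ?_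
  have hy0 : 0 < y := (Real.exp_pos 1).trans_le hy.1
  rw [mul_one_div, ← add_div]
  refine div_le_div_of_nonneg_right ?_ hy0.le
  have h1 := h y hy.1
  have h2 : f y = (f y + g y) - g y := by ring
  have h3 := abs_sub (f y + g y) (g y)
  rw [← h2] at h3
  linarith

/-- the windows of the primes and of the prime powers: growth of the means -/
theorem wl_of_wv (E : Sys N α) {l : ℝ} (hl : 0 < l) (hl1 : l < 1)
    (h : ∀ ε : ℝ, 0 < ε → ∃ B : ℝ, ∀ᶠ Y : ℝ in atTop,
      ∫ y in Real.exp 1..Y, |WV N α 0 l y| / y ≤ B * Y ^ ε) (ε : ℝ) (hε : 0 < ε) :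
    ∃ B : ℝ, ∀ᶠ Y : ℝ in atTop, ∫ y in Real.exp 1..Y, |WL N α 0 l y| / y ≤ B * Y ^ ε := by
  obtain ⟨M, -, hM⟩ := close_w2 E
  obtain ⟨K, hK⟩ := (hM 0 l hl hl1).2
  have hK0 : 0 ≤ K := (abs_nonneg _).trans (hK _ le_rfl)
  obtain ⟨B, hB⟩ := h ε hε
  refine ⟨B + K / ε, ?_⟩
  filter_upwards [hB, eventually_ge_atTop (Real.exp 1)] with Y h1 h2
  have hY0 : 0 < Y := (Real.exp_pos 1).trans_le h2
  have h3 := mean_close (bm_wl E 0 hl1) (bm_wv E 0 hl1) (K := K) (fun y hy => by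
    rw [add_comm]
    exact hK y hy) h2
  have h4 : Real.log Y ≤ Y ^ ε / ε := Real.log_le_rpow_div hY0.le hε
  have h5 : K * (Real.log Y - 1) ≤ K * (Y ^ ε / ε) := by
    refine mul_le_mul_of_nonneg_left ?_ hK0
    linarith
  calc _ ≤ B * Y ^ ε + K * (Y ^ ε / ε) := by linarith
    _ = _ := by ring

/-- **One window continues the Euler product.** -/
theorem window_cont (E : Sys N α) (hreal : ∀ v k, (∑ i, zv N α v i ^ k).im = 0) {l : ℝ}
    (hl : 0 < l) (hl1 : l < 1)
    (h : ∀ ε : ℝ, 0 < ε → ∃ B : ℝ, ∀ᶠ Y : ℝ in atTop,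
      ∫ y in Real.exp 1..Y, |WV N α 0 l y| / y ≤ B * Y ^ ε) :
    ∃ F : ℂ → ℂ, (∀ s : ℂ, 0 < s.re → DifferentiableAt ℂ F s ∧ F s ≠ 0) ∧
      ∀ s : ℂ, 1 < s.re → F s = LE N α s := by
  have := E.cnt
  obtain ⟨e, he⟩ := Countable.exists_injective_nat (X × ℕ)
  have h1 := wl_of_wv E hl hl1 h
  obtain ⟨F, h2, h3⟩ := cont_of_lint (dat' E he) (fun x hx => lint_win (dat' E he) hl hl1
    (fun ε hε => by
      obtain ⟨B, hB⟩ := h1 ε hε
      rw [eventually_exp_iff (f := fun Y => ∫ y in Real.exp 1..Y, |WL N α 0 l y| / y ≤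
        B * Y ^ ε)] at hB
      refine ⟨B, ?_⟩
      filter_upwards [hB, eventually_ge_atTop 1] with T h4 hT
      have h5 : ∫ y in Real.exp 1..Real.exp T, |WL N α 0 l y| / y =
          ∫ u in (1 : ℝ)..T, |Wn (lamS N e) (cS' N α e) 0 l u| := by
        rw [← cov_ii _ hT]
        refine intervalIntegral.integral_congr fun Y hY => ?_
        rw [uIcc_of_le (Real.exp_le_exp.2 hT)] at hY
        show |WL N α 0 l Y| / Y = |Wn (lamS N e) (cS' N α e) 0 l (Real.log Y)| / Y
        rw [wl_eq E he 0 l ((Real.exp_pos 1).trans_le hY.1), abs_neg]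
      rw [h5, ← Real.exp_mul, mul_comm T] at h4
      exact h4) hx)
  refine ⟨F, h2, fun s hs => ?_⟩
  rw [h3 s hs, DD_neg, E.exp_DD hreal he (by linarith)]

/-- the forward direction, uniformly in `l` -/
theorem unif_fwd (H : Mc N α Ψ G₀ k κ η C) {m : ℤ} (hz : ∀ s : ℂ, 0 < s.re → Ψ s ≠ 0)
    (hm : meromorphicOrderAt Ψ 0 = m) : ∃ M : ℝ, ∀ l : ℝ, 0 < l → l < 1 → ∀ᶠ Y : ℝ in atTop,
      ∫ y in Real.exp 1..Y, |WV N α m l y| / y ≤ M * Real.log Y := by
  obtain ⟨M, hM0, hM⟩ := close_w2 H.E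
  refine ⟨2 * M + 2, fun l hl hl1 => ?_⟩
  obtain ⟨h1, K, hK⟩ := hM m l hl hl1
  have hK0 : 0 ≤ K := (abs_nonneg _).trans (hK _ le_rfl)
  have h2 := (window_pl H m hl hl1).2 ⟨hz, m, rfl, hm⟩
  have b1 := bm_wl H.E m hl1
  have b2 := bm_wv H.E m hl1
  set Y₀ : ℝ := Real.exp (1 / l) with hY₀
  have hY₀e : Real.exp 1 ≤ Y₀ := by
    refine Real.exp_le_exp.2 ?_
    rw [le_div_iff₀ hl]
    linarith
  have h3 : ∀ᶠ Y : ℝ in atTop, K * (Real.log Y₀ - 1) ≤ Real.log Y :=
    Real.tendsto_log_atTop.eventually_ge_atTop _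
  filter_upwards [h2.eventually (gt_mem_nhds one_pos), h3, eventually_ge_atTop Y₀] with Y h4 h5 h6
  have hYe : Real.exp 1 ≤ Y := hY₀e.trans h6
  have hlog := one_le_log hYe
  rw [div_lt_one (by linarith)] at h4
  -- the function
  have i1 := b2.li.abs.div
  have i2 := b1.li.abs.div
  have j1 : IntervalIntegrable (fun y => |WV N α m l y| / y) volume Y₀ Y :=
    (i1 Y₀ hY₀e).symm.trans (i1 Y hYe)
  have j2 : IntervalIntegrable (fun y => |WL N α m l y| / y) volume Y₀ Y :=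
    (i2 Y₀ hY₀e).symm.trans (i2 Y hYe)
  have j3 : IntervalIntegrable (fun y : ℝ => 2 * M * (1 / y)) volume Y₀ Y := by
    refine ContinuousOn.intervalIntegrable ?_
    rw [uIcc_of_le h6]
    refine continuousOn_const.mul (continuousOn_const.div continuousOn_id fun y hy => ?_)
    exact ((Real.exp_pos 1).trans_le (hY₀e.trans hy.1)).ne'
  have e1 : ∫ y in Real.exp 1..Y₀, |WV N α m l y| / y ≤
      (∫ y in Real.exp 1..Y₀, |WL N α m l y| / y) + K * (Real.log Y₀ - 1) :=
    mean_close b2 b1 hK hY₀e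
  have e2 : ∫ y in Y₀..Y, |WV N α m l y| / y ≤
      (∫ y in Y₀..Y, |WL N α m l y| / y) + 2 * M * Real.log Y := by
    have h7 : ∫ y in Y₀..Y, |WV N α m l y| / y ≤
        ∫ y in Y₀..Y, (|WL N α m l y| / y + 2 * M * (1 / y)) := by
      refine intervalIntegral.integral_mono_on h6 j1 (j2.add j3) fun y hy => ?_
      have hy0 : 0 < y := (Real.exp_pos 1).trans_le (hY₀e.trans hy.1)
      rw [mul_one_div, ← add_div]
      refine div_le_div_of_nonneg_right ?_ hy0.le
      have h8 := h1 y hy.1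
      have h9 : WV N α m l y = (WV N α m l y + WL N α m l y) - WL N α m l y := by ring
      have h10 := abs_sub (WV N α m l y + WL N α m l y) (WL N α m l y)
      rw [← h9] at h10
      linarith
    rw [intervalIntegral.integral_add j2 j3, intervalIntegral.integral_const_mul,
      integral_one_div_of_pos ((Real.exp_pos 1).trans_le hY₀e) ((Real.exp_pos 1).trans_le hYe),
      Real.log_div ((Real.exp_pos 1).trans_le hYe).ne' ((Real.exp_pos 1).trans_le hY₀e).ne'] at h7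
    have h8 : 0 ≤ Real.log Y₀ := by
      have := one_le_log hY₀e
      linarith
    have h9 : 0 ≤ 2 * M := by linarith
    nlinarith [mul_nonneg h9 h8]
  have e3 := intervalIntegral.integral_add_adjacent_intervals (i1 Y₀ hY₀e) j1
  have e4 := intervalIntegral.integral_add_adjacent_intervals (i2 Y₀ hY₀e) j2
  rw [← e3]
  have e5 : (∫ y in Real.exp 1..Y₀, |WL N α m l y| / y) + ∫ y in Y₀..Y, |WL N α m l y| / y <
      Real.log Y := by
    rw [e4]
    exact h4
  linarith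

lemma wv_shift (E : Sys N α) (ρ ρ' : ℝ) {l : ℝ} (hl1 : l < 1) {Y : ℝ} (hY : Real.exp 1 ≤ Y) :
    |(ρ - ρ') * Real.log l| * (Real.log Y - 1) ≤
      (∫ y in Real.exp 1..Y, |WV N α ρ l y| / y) + ∫ y in Real.exp 1..Y, |WV N α ρ' l y| / y := by
  have i1 := (bm_wv E ρ hl1).li.abs.div Y hY
  have i2 := (bm_wv E ρ' hl1).li.abs.div Y hY
  have i3 : IntervalIntegrable (fun y : ℝ => |(ρ - ρ') * Real.log l| * (1 / y)) volume
      (Real.exp 1) Y := by
    refine ContinuousOn.intervalIntegrable ?_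
    rw [uIcc_of_le hY]
    refine continuousOn_const.mul (continuousOn_const.div continuousOn_id fun y hy => ?_)
    exact ((Real.exp_pos 1).trans_le hy.1).ne'
  rw [← int_inv hY, ← intervalIntegral.integral_const_mul, ← intervalIntegral.integral_add i1 i2]
  refine intervalIntegral.integral_mono_on hY i3 (i1.add i2) fun y hy => ?_
  have hy0 : 0 < y := (Real.exp_pos 1).trans_le hy.1
  rw [mul_one_div, ← add_div]
  refine div_le_div_of_nonneg_right ?_ hy0.le
  have h9 : (ρ - ρ') * Real.log l = WV N α ρ l y - WV N α ρ' l y := by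
    unfold WV
    ring
  rw [h9]
  exact abs_sub _ _

/-- **The order from a bound for the means which is uniform in `l`.** -/
theorem window_order (H : Mc N α Ψ G₀ k κ η C) (ρ : ℝ) :
    ((∀ s : ℂ, 0 < s.re → Ψ s ≠ 0) ∧ ∃ m : ℤ, ρ = m ∧ meromorphicOrderAt Ψ 0 = m) ↔
    ∃ M : ℝ, ∀ l : ℝ, 0 < l → l < 1 → ∀ᶠ Y : ℝ in atTop,
      ∫ y in Real.exp 1..Y, |WV N α ρ l y| / y ≤ M * Real.log Y := by
  constructor
  · rintro ⟨h1, m, rfl, h2⟩
    exact unif_fwd H h1 h2
  · rintro ⟨M, hM⟩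
    have hz : ∀ s : ℂ, 0 < s.re → Ψ s ≠ 0 := by
      have t : (∀ s : ℂ, 0 < s.re → Ψ s ≠ 0) ↔ ∃ l : ℝ, 0 < l ∧ l < 1 ∧ ∃ B : ℝ,
          ∀ᶠ Y : ℝ in atTop, ∫ y in Real.exp 1..Y, |WV N α 0 l y| / y ≤ B * Real.log Y :=
        (window_bdd H).out 0 3
      refine t.2 ⟨1 / 2, by norm_num, by norm_num, M + |ρ * Real.log (1 / 2)|, ?_⟩
      filter_upwards [hM (1 / 2) (by norm_num) (by norm_num), eventually_ge_atTop (Real.exp 1)]
        with Y h1 h2
      have hlog := one_le_log h2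
      have h3 := mean_close (bm_wv H.E 0 (l := 1 / 2) (by norm_num))
        (bm_wv H.E ρ (l := 1 / 2) (by norm_num)).neg (K := |ρ * Real.log (1 / 2)|)
        (fun y _ => by
          have h4 : WV N α 0 (1 / 2) y + -WV N α ρ (1 / 2) y = -(ρ * Real.log (1 / 2)) := by
            unfold WV
            ring
          rw [h4, abs_neg]) h2
      simp only [abs_neg] at h3
      have h4 := abs_nonneg (ρ * Real.log (1 / 2))
      nlinarith
    obtain ⟨e, g, p, he, Q⟩ := H.cn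
    have hord := (mero_of Q.hg Q.hg0 (local_form H.hη H.hΨ Q.near)).2
    refine ⟨hz, _, ?_, hord⟩
    obtain ⟨M', hM'⟩ := unif_fwd H hz hord
    set m : ℤ := (p : ℤ) - k with hm
    by_contra hne
    have hd : 0 < |ρ - m| := abs_pos.2 (sub_ne_zero.2 hne)
    -- a small `l`
    obtain ⟨t, ht⟩ := exists_gt (max ((M + M' + 1) / |ρ - m| * 2) 1)
    have ht1 : 1 < t := (le_max_right _ _).trans_lt ht
    have ht2 : (M + M' + 1) / |ρ - m| * 2 < t := (le_max_left _ _).trans_lt ht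
    have hl : 0 < Real.exp (-t) := Real.exp_pos _
    have hl1 : Real.exp (-t) < 1 := by rw [Real.exp_lt_one_iff]; linarith
    have h5 : ∀ᶠ Y : ℝ in atTop, (2 : ℝ) ≤ Real.log Y :=
      Real.tendsto_log_atTop.eventually_ge_atTop _
    obtain ⟨Y, h1, h2, h3, h4⟩ := ((hM _ hl hl1).and ((hM' _ hl hl1).and
      (h5.and (eventually_ge_atTop (Real.exp 1))))).exists
    have h6 := wv_shift H.E ρ m hl1 h4
    rw [Real.log_exp, abs_mul, abs_neg, abs_of_pos (by linarith : 0 < t)] at h6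
    have h7 : |ρ - m| * t * (Real.log Y - 1) ≤ (M + M') * Real.log Y := by linarith
    have h8 : Real.log Y / 2 ≤ Real.log Y - 1 := by linarith
    have h9 : (M + M' + 1) * 2 < t * |ρ - m| := by
      have := mul_lt_mul_of_pos_right ht2 hd
      calc (M + M' + 1) * 2 = (M + M' + 1) / |ρ - m| * 2 * |ρ - m| := by field_simp
        _ < _ := this
    have h10 : |ρ - m| * t * (Real.log Y / 2) ≤ |ρ - m| * t * (Real.log Y - 1) :=
      mul_le_mul_of_nonneg_left h8 (by positivity)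
    nlinarith

end System

end Pool.Agent.Q5.MS
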