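import Pool.Agent.Q5.MS.Lead

/-!
# The products over the windows `(x^l, x]` in logarithmic mean

One exponent `l` is enough for the order and the zeros.
-/

set_option autoImplicit false

open MeasureTheory Filter Topology Set Complex
open Pool.Agent.TH942.ES
open Pool.Agent.TH942.SL
open Pool.Agent.TH270.MS
open Pool.Agent.TH942.LS (Dat)
open Pool.Agent.TH270.RS (cS' dat')
open Pool.Agent.W263.BSD (LInt lap)

namespace Pool.Agent.Q5.MS

section Dirichlet

variable {lam c : ℕ → ℝ} {δ σ : ℝ} {G₀ g : ℂ → ℂ} {k p κ : ℕ} {η C : ℝ}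

/-- the window -/
noncomputable def Wn (lam c : ℕ → ℝ) (r l u : ℝ) : ℝ :=
  Sh lam c u - Sh lam c (l * u) + r * Real.log l

lemma wn_meas (D : Dat lam c δ σ) (r l : ℝ) : Measurable (Wn lam c r l) :=
  ((sh_meas D).sub ((sh_meas D).comp (measurable_const_mul l))).add_const _

lemma wn_le (D : Dat lam c δ σ) (r : ℝ) {l : ℝ} (hl1 : l < 1) :
    ∃ C : ℝ, 0 ≤ C ∧ ∀ u : ℝ, |(Ioi (0 : ℝ)).indicator (Wn lam c r l) u| ≤ C * Real.exp (σ * u) := by
  set S₀ : ℝ := ∑' n, |c n| * Real.exp (-(σ * lam n)) with hS₀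
  have h0 : 0 ≤ S₀ := tsum_nonneg fun n => by positivity
  refine ⟨2 * S₀ + |r * Real.log l|, by positivity, fun u => ?_⟩
  by_cases hu : u ∈ Ioi (0 : ℝ)
  · rw [indicator_of_mem hu]
    have hu0 : 0 < u := hu
    have h1 := sh_le D u
    have h2 := sh_le D (l * u)
    rw [← hS₀] at h1 h2
    have h3 : Real.exp (σ * (l * u)) ≤ Real.exp (σ * u) := by
      apply Real.exp_le_exp.2
      have h4 : l * u ≤ u := by nlinarith
      exact mul_le_mul_of_nonneg_left h4 D.σ0.le
    have h5 : 1 ≤ Real.exp (σ * u) := Real.one_le_exp (mul_nonneg D.σ0.le hu0.le)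
    have h6 := mul_le_mul_of_nonneg_right h3 h0
    have h7 := mul_le_mul_of_nonneg_left h5 (abs_nonneg (r * Real.log l))
    unfold Wn
    refine (abs_add_le _ _).trans ?_
    have h8 := abs_sub (Sh lam c u) (Sh lam c (l * u))
    nlinarith
  · rw [indicator_of_notMem hu, abs_zero]
    positivity

/-- one step of the induction -/
lemma lint_step (D : Dat lam c δ σ) (r c₀ : ℝ) {l : ℝ} (hl : 0 < l) (hl1 : l < 1) {x : ℝ}
    (hx : 0 < x) (h1 : LInt ((Ioi (0 : ℝ)).indicator (Wn lam c r l)) x)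
    (h2 : LInt (Er lam c r c₀) (x / l)) : LInt (Er lam c r c₀) x := by
  obtain ⟨C₁, hC₁, hb⟩ := er_le D r c₀
  set B : ℝ := 4 * |r| + C₁ * Real.exp (σ * (1 / l)) with hB
  have hB0 : 0 ≤ B := by positivity
  unfold LInt at h1 h2 ⊢
  have i2 : IntegrableOn (fun u : ℝ => Er lam c r c₀ (l * u) * Real.exp (-(x * u))) (Ioi 0) := by
    have h3 := (integrableOn_Ioi_comp_mul_left_iff
      (fun u : ℝ => Er lam c r c₀ u * Real.exp (-(x / l * u))) 0 hl).2 (by rwa [mul_zero])
    refine h3.congr_fun (fun u _ => ?_) measurableSet_Ioi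
    simp only
    congr 2
    field_simp
  have i3 : IntegrableOn (fun u : ℝ => B * Real.exp (-(x * u))) (Ioi 0) := by
    have h5 : IntegrableOn (fun u : ℝ => B * Real.exp (-x * u)) (Ioi 0) :=
      (integrableOn_exp_mul_Ioi (by linarith) 0).const_mul B
    simpa only [neg_mul] using h5
  have i4 := (h1.norm.add i2.norm).add i3
  refine Integrable.mono' i4 ((er_meas D r c₀).mul (by fun_prop)).aestronglyMeasurable ?_
  filter_upwards [ae_restrict_mem measurableSet_Ioi] with u hu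
  have hu0 : 0 < u := hu
  simp only [Pi.add_apply, norm_mul, Real.norm_eq_abs, abs_of_pos (Real.exp_pos _)]
  rw [indicator_of_mem hu, ← add_mul, ← add_mul]
  refine mul_le_mul_of_nonneg_right ?_ (Real.exp_pos _).le
  rcases le_or_gt (1 / l) u with h | h
  · have hlu : 1 ≤ l * u := by
      rw [div_le_iff₀ hl] at h
      linarith
    have hu1 : 1 ≤ u := by nlinarith
    have e1 := harm_near hu1
    have e2 := harm_near hlu
    have e3 : 2 / u ≤ 2 := by
      rw [div_le_iff₀ hu0]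
      linarith
    have e4 : 2 / (l * u) ≤ 2 := by
      rw [div_le_iff₀ (by linarith)]
      linarith
    have e5 : Er lam c r c₀ u = Wn lam c r l u + Er lam c r c₀ (l * u) +
        -(r * ((Sh lamh ch u - Real.log u - Real.eulerMascheroniConstant) -
          (Sh lamh ch (l * u) - Real.log (l * u) - Real.eulerMascheroniConstant))) := by
      unfold Er Wn
      rw [indicator_of_mem (show u ∈ Ioi (0 : ℝ) from hu0), indicator_of_mem
        (show l * u ∈ Ioi (0 : ℝ) from mul_pos hl hu0), Real.log_mul hl.ne' hu0.ne']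
      ring
    have e6 : |-(r * ((Sh lamh ch u - Real.log u - Real.eulerMascheroniConstant) -
          (Sh lamh ch (l * u) - Real.log (l * u) - Real.eulerMascheroniConstant)))| ≤ 4 * |r| := by
      rw [abs_neg, abs_mul]
      have e7 := abs_sub (Sh lamh ch u - Real.log u - Real.eulerMascheroniConstant)
        (Sh lamh ch (l * u) - Real.log (l * u) - Real.eulerMascheroniConstant)
      nlinarith [abs_nonneg r]
    rw [e5]
    refine (abs_add_le _ _).trans ?_
    refine add_le_add (abs_add_le _ _) ?_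
    refine e6.trans ?_
    rw [hB]
    have : 0 ≤ C₁ * Real.exp (σ * (1 / l)) := by positivity
    linarith
  · have e1 := hb u
    have e2 : Real.exp (σ * u) ≤ Real.exp (σ * (1 / l)) :=
      Real.exp_le_exp.2 (mul_le_mul_of_nonneg_left h.le D.σ0.le)
    have e3 := mul_le_mul_of_nonneg_left e2 hC₁
    have e4 := abs_nonneg (Wn lam c r l u)
    have e5 := abs_nonneg (Er lam c r c₀ (l * u))
    have e6 := abs_nonneg r
    rw [hB]
    linarith

/-- integrability everywhere -/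
lemma lint_all (D : Dat lam c δ σ) (r c₀ : ℝ) {l : ℝ} (hl : 0 < l) (hl1 : l < 1)
    (h1 : ∀ x : ℝ, 0 < x → LInt ((Ioi (0 : ℝ)).indicator (Wn lam c r l)) x) {x : ℝ} (hx : 0 < x) :
    LInt (Er lam c r c₀) x := by
  have key : ∀ n : ℕ, ∀ x : ℝ, 0 < x → σ < x * (1 / l) ^ n → LInt (Er lam c r c₀) x := by
    intro n
    induction n with
    | zero =>
      intro x _ h
      rw [pow_zero, mul_one] at h
      exact er_int D r c₀ h
    | succ n ih =>
      intro x hx h
      refine lint_step D r c₀ hl hl1 hx (h1 x hx) (ih (x / l) (by positivity) ?_)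
      rw [pow_succ] at h
      calc σ < x * ((1 / l) ^ n * (1 / l)) := h
        _ = x / l * (1 / l) ^ n := by ring
  have h2 : Tendsto (fun n : ℕ => x * (1 / l) ^ n) atTop atTop :=
    (tendsto_pow_atTop_atTop_of_one_lt ((one_lt_div hl).2 hl1)).const_mul_atTop hx
  obtain ⟨n, hn⟩ := (h2.eventually_gt_atTop σ).exists
  exact key n x hx hn

lemma fint (D : Dat lam c δ σ) (r q : ℝ) {a b : ℝ} (ha : 0 < a) (hab : a ≤ b) :
    IntervalIntegrable (fun u : ℝ => Sh lam c u - r * Real.log u - q) volume a b := by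
  have i1 : IntervalIntegrable (fun u : ℝ => Sh lam c u) volume a b := by
    rw [intervalIntegrable_iff_integrableOn_Ioc_of_le hab]
    set S₀ : ℝ := ∑' n, |c n| * Real.exp (-(σ * lam n)) with hS₀
    have h1 : IntegrableOn (fun u : ℝ => Real.exp (σ * u) * S₀) (Ioc a b) :=
      (Continuous.integrableOn_Icc (by fun_prop)).mono_set Ioc_subset_Icc_self
    exact h1.mono' (sh_meas D).aestronglyMeasurable (Eventually.of_forall fun u => sh_le D u)
  have i2 : IntervalIntegrable (fun u : ℝ => r * Real.log u) volume a b := by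
    refine ContinuousOn.intervalIntegrable_of_Icc hab ?_
    refine continuousOn_const.mul (Real.continuousOn_log.mono fun u hu => ?_)
    have : a ≤ u := hu.1
    show u ≠ 0
    linarith
  exact (i1.sub i2).sub intervalIntegrable_const

lemma wint (D : Dat lam c δ σ) (r : ℝ) {l : ℝ} (hl1 : l < 1) {a b : ℝ} (ha : 0 < a)
    (hab : a ≤ b) : IntervalIntegrable (Wn lam c r l) volume a b := by
  obtain ⟨C, _, hC⟩ := wn_le (c := c) D r hl1
  rw [intervalIntegrable_iff_integrableOn_Ioc_of_le hab]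
  have h1 : IntegrableOn (fun u : ℝ => C * Real.exp (σ * u)) (Ioc a b) :=
    (Continuous.integrableOn_Icc (by fun_prop)).mono_set Ioc_subset_Icc_self
  refine h1.mono' (wn_meas D r l).aestronglyMeasurable ?_
  filter_upwards [ae_restrict_mem measurableSet_Ioc] with u hu
  have hu0 : u ∈ Ioi (0 : ℝ) := ha.trans hu.1
  have := hC u
  rwa [indicator_of_mem hu0] at this

/-- the windows of a function with small means have small means -/
lemma wn_small (D : Dat lam c δ σ) {r q l : ℝ} (hl : 0 < l) (hl1 : l < 1)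
    (h : Tendsto (fun T : ℝ => (∫ u in (1 : ℝ)..T, |Sh lam c u - r * Real.log u - q|) / T) atTop
      (𝓝 0)) :
    Tendsto (fun T : ℝ => (∫ u in (1 : ℝ)..T, |Wn lam c r l u|) / T) atTop (𝓝 0) := by
  set f : ℝ → ℝ := fun u => Sh lam c u - r * Real.log u - q with hf
  set J : ℝ := ∫ u in l..1, |f u| with hJ
  have h1 : Tendsto (fun T : ℝ => (∫ u in (1 : ℝ)..T, |f u|) / T + l⁻¹ * (J / T +
      (∫ u in (1 : ℝ)..T, |f u|) / T)) atTop (𝓝 0) := by
    have h2 : Tendsto (fun T : ℝ => J / T) atTop (𝓝 0) := tendsto_const_nhds.div_atTop tendsto_id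
    have h3 := h.add ((h2.add h).const_mul l⁻¹)
    simpa using h3
  refine squeeze_zero' ?_ ?_ h1
  · filter_upwards [eventually_ge_atTop 1] with T hT
    exact div_nonneg (intervalIntegral.integral_nonneg hT fun u _ => abs_nonneg _) (by linarith)
  · filter_upwards [eventually_ge_atTop 1] with T hT
    have hT0 : 0 < T := by linarith
    have hlT : l ≤ l * T := by nlinarith
    have hlT' : l * T ≤ T := by nlinarith
    have i1 : IntervalIntegrable (fun u => |f u|) volume 1 T := (fint D r q one_pos hT).abs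
    have i0 : IntervalIntegrable (fun u => |f u|) volume l 1 := (fint D r q hl hl1.le).abs
    have i3 : IntervalIntegrable (fun u => |f (l * u)|) volume 1 T := by
      have h2 : IntervalIntegrable (fun u => |f u|) volume (l * 1) (l * T) := by
        rw [mul_one]
        exact (fint D r q hl hlT).abs
      rw [intervalIntegrable_iff_integrableOn_Ioc_of_le hT]
      rw [mul_one, intervalIntegrable_iff_integrableOn_Ioc_of_le hlT] at h2
      have h4 : IntervalIntegrable (fun u => |f (l * u)|) volume (l / l) (l * T / l) :=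
        ((intervalIntegrable_iff_integrableOn_Ioc_of_le hlT).2 h2).comp_mul_left
      rw [div_self hl.ne', mul_div_cancel_left₀ _ hl.ne',
        intervalIntegrable_iff_integrableOn_Ioc_of_le hT] at h4
      exact h4
    have e1 : ∫ u in (1 : ℝ)..T, |Wn lam c r l u| ≤
        ∫ u in (1 : ℝ)..T, (|f u| + |f (l * u)|) := by
      refine intervalIntegral.integral_mono_on hT (wint D r hl1 one_pos hT).abs
        (i1.add i3) fun u hu => ?_
      have hu0 : 0 < u := by linarith [hu.1]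
      have e2 : Wn lam c r l u = f u - f (l * u) := by
        rw [hf]
        simp only
        unfold Wn
        rw [Real.log_mul hl.ne' hu0.ne']
        ring
      rw [e2]
      exact abs_sub _ _
    rw [intervalIntegral.integral_add i1 i3] at e1
    have e3 : ∫ u in (1 : ℝ)..T, |f (l * u)| = l⁻¹ * ∫ u in l..l * T, |f u| := by
      have := intervalIntegral.integral_comp_mul_left (a := 1) (b := T) (fun u => |f u|) hl.ne'
      rw [mul_one, smul_eq_mul] at this
      exact this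
    have e4 : ∫ u in l..l * T, |f u| ≤ J + ∫ u in (1 : ℝ)..T, |f u| := by
      rw [hJ, intervalIntegral.integral_add_adjacent_intervals i0 i1]
      exact intervalIntegral.integral_mono_interval le_rfl hlT hlT'
        (Eventually.of_forall fun u => abs_nonneg _) (i0.trans i1)
    have e5 : l⁻¹ * ∫ u in l..l * T, |f u| ≤ l⁻¹ * (J + ∫ u in (1 : ℝ)..T, |f u|) :=
      mul_le_mul_of_nonneg_left e4 (inv_nonneg.2 hl.le)
    rw [← add_div, ← mul_div_assoc, ← add_div]
    refine div_le_div_of_nonneg_right ?_ hT0.le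
    linarith

/-- the windows of a zero free series -/
theorem wn_fwd (E : Cn lam c δ σ G₀ g k p κ η C) {r : ℝ} (h1 : ∀ s : ℂ, 0 < s.re → G₀ s ≠ 0)
    (h2 : (p : ℝ) = k + r) {l : ℝ} (hl : 0 < l) (hl1 : l < 1) :
    Tendsto (fun T : ℝ => (∫ u in (1 : ℝ)..T, |Wn lam c r l u|) / T) atTop (𝓝 0) := by
  obtain ⟨q, -, h3⟩ := E.sq h1 h2
  exact wn_small E.D hl hl1 (small_of_sq E.D h3)

/-- bounded means of the windows give zero freeness -/
theorem wn_bwd (E : Cn lam c δ σ G₀ g k p κ η C) {r l B : ℝ} (hl : 0 < l) (hl1 : l < 1)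
    (h : ∀ᶠ T : ℝ in atTop, ∫ u in (1 : ℝ)..T, |Wn lam c r l u| ≤ B * T) :
    ∀ s : ℂ, 0 < s.re → G₀ s ≠ 0 := by
  have D := E.D
  have h1 : ∀ x : ℝ, 0 < x → LInt ((Ioi (0 : ℝ)).indicator (Wn lam c r l)) x := by
    obtain ⟨C₁, -, hb⟩ := wn_le (c := c) D r hl1
    refine (mean_lap ((wn_meas D r l).indicator measurableSet_Ioi) hb
      (by positivity : 0 < |B| + 1) ?_).1
    filter_upwards [h, eventually_ge_atTop 1] with T h1 h2
    have h3 : ∫ u in (1 : ℝ)..T, |(Ioi (0 : ℝ)).indicator (Wn lam c r l) u| =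
        ∫ u in (1 : ℝ)..T, |Wn lam c r l u| := by
      refine intervalIntegral.integral_congr fun u hu => ?_
      rw [uIcc_of_le h2] at hu
      have : u ∈ Ioi (0 : ℝ) := lt_of_lt_of_le one_pos hu.1
      simp only [indicator_of_mem this]
    rw [h3]
    have h5 : B * T ≤ |B| * T := mul_le_mul_of_nonneg_right (le_abs_self B) (by linarith)
    linarith
  have h2 : ∀ x : ℝ, 0 < x → LInt (Er lam c r 0) x := fun x hx =>
    lint_all D r 0 hl hl1 h1 hx
  exact (conv D (fun s hs => E.hG s (by linarith [E.hη])) E.hexp E.hg E.hg0 E.near h2).1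

lemma wn_shift (D : Dat lam c δ σ) (r r' : ℝ) {l : ℝ} (hl1 : l < 1) {T : ℝ} (hT : 1 ≤ T) :
    ∫ u in (1 : ℝ)..T, |Wn lam c r l u| ≤ (∫ u in (1 : ℝ)..T, |Wn lam c r' l u|) +
      |(r - r') * Real.log l| * T := by
  have j1 := (wint (c := c) D r hl1 one_pos hT).abs
  have j2 := (wint (c := c) D r' hl1 one_pos hT).abs
  have h7 : ∫ u in (1 : ℝ)..T, |Wn lam c r l u| ≤
      ∫ u in (1 : ℝ)..T, (|Wn lam c r' l u| + |(r - r') * Real.log l|) := by
    refine intervalIntegral.integral_mono_on hT j1 (j2.add intervalIntegrable_const) fun u _ => ?_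
    have h8 : Wn lam c r l u = Wn lam c r' l u + (r - r') * Real.log l := by
      unfold Wn
      ring
    rw [h8]
    exact abs_add_le _ _
  rw [intervalIntegral.integral_add j2 intervalIntegrable_const, intervalIntegral.integral_const,
    smul_eq_mul] at h7
  have h8 := abs_nonneg ((r - r') * Real.log l)
  nlinarith

/-- **The criterion with the windows: bounded means are enough.** -/
theorem cn_window_bdd (E : Cn lam c δ σ G₀ g k p κ η C) : List.TFAE [
    ∀ s : ℂ, 0 < s.re → G₀ s ≠ 0,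
    ∃ l : ℝ, 0 < l ∧ l < 1 ∧ ∃ B : ℝ, ∀ᶠ T : ℝ in atTop,
      ∫ u in (1 : ℝ)..T, |Wn lam c 0 l u| ≤ B * T,
    ∀ l : ℝ, 0 < l → l < 1 → ∃ B : ℝ, ∀ᶠ T : ℝ in atTop,
      ∫ u in (1 : ℝ)..T, |Wn lam c 0 l u| ≤ B * T] := by
  tfae_have 1 → 3 := by
    intro h l hl hl1
    have h1 := wn_fwd E (r := p - k) h (by ring) hl hl1
    refine ⟨1 + |(0 - ((p : ℝ) - k)) * Real.log l|, ?_⟩
    filter_upwards [h1.eventually (gt_mem_nhds one_pos), eventually_ge_atTop 1] with T h2 h3
    rw [div_lt_one (by linarith)] at h2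
    have h4 := wn_shift E.D 0 ((p : ℝ) - k) hl1 h3
    linarith
  tfae_have 3 → 2 := fun h => ⟨1 / 2, by norm_num, by norm_num, h _ (by norm_num) (by norm_num)⟩
  tfae_have 2 → 1 := fun ⟨l, hl, hl1, B, h⟩ => wn_bwd E hl hl1 h
  tfae_finish

/-- **The criterion with one window.** -/
theorem cn_window_one (E : Cn lam c δ σ G₀ g k p κ η C) (r : ℝ) {l : ℝ} (hl : 0 < l)
    (hl1 : l < 1) :
    Tendsto (fun T : ℝ => (∫ u in (1 : ℝ)..T, |Wn lam c r l u|) / T) atTop (𝓝 0) ↔
      (∀ s : ℂ, 0 < s.re → G₀ s ≠ 0) ∧ (p : ℝ) = k + r := by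
  have D := E.D
  refine ⟨fun h => ?_, fun h => wn_fwd E h.1 h.2 hl hl1⟩
  have h3 : ∀ s : ℂ, 0 < s.re → G₀ s ≠ 0 := by
    refine wn_bwd E (r := r) (B := 1) hl hl1 ?_
    filter_upwards [h.eventually (gt_mem_nhds one_pos), eventually_ge_atTop 1] with T h1 h2
    rw [div_lt_one (by linarith)] at h1
    linarith
  refine ⟨h3, ?_⟩
  set r' : ℝ := p - k with hr'
  have h4 := wn_fwd E (r := r') h3 (by rw [hr']; ring) hl hl1
  have h5 := h.add h4
  rw [add_zero] at h5
  have h6 : ∀ᶠ T : ℝ in atTop, |(r - r') * Real.log l| * (1 - 1 / T) ≤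
      (∫ u in (1 : ℝ)..T, |Wn lam c r l u|) / T + (∫ u in (1 : ℝ)..T, |Wn lam c r' l u|) / T := by
    filter_upwards [eventually_ge_atTop 1] with T hT
    have hT0 : 0 < T := by linarith
    have j1 := (wint (c := c) D r hl1 one_pos hT).abs
    have j2 := (wint (c := c) D r' hl1 one_pos hT).abs
    rw [← add_div, ← intervalIntegral.integral_add j1 j2, le_div_iff₀ hT0]
    have h7 : ∫ _ in (1 : ℝ)..T, |(r - r') * Real.log l| ≤
        ∫ u in (1 : ℝ)..T, (|Wn lam c r l u| + |Wn lam c r' l u|) := by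
      refine intervalIntegral.integral_mono_on hT intervalIntegrable_const (j1.add j2)
        fun u _ => ?_
      have h8 : (r - r') * Real.log l = Wn lam c r l u - Wn lam c r' l u := by
        unfold Wn
        ring
      rw [h8]
      exact abs_sub _ _
    rw [intervalIntegral.integral_const, smul_eq_mul] at h7
    refine le_trans (le_of_eq ?_) h7
    field_simp
  have h7 : Tendsto (fun T : ℝ => |(r - r') * Real.log l| * (1 - 1 / T)) atTop
      (𝓝 |(r - r') * Real.log l|) := by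
    have h8 : Tendsto (fun T : ℝ => 1 / T) atTop (𝓝 0) := by
      simpa using tendsto_inv_atTop_zero
    have h9 := (h8.const_sub 1).const_mul |(r - r') * Real.log l|
    rwa [sub_zero, mul_one] at h9
  have h8 := le_of_tendsto_of_tendsto h7 h5 h6
  have h9 : (r - r') * Real.log l = 0 := abs_eq_zero.1 (le_antisymm h8 (abs_nonneg _))
  have h10 : Real.log l ≠ 0 := (Real.log_neg hl hl1).ne
  have h11 : r = r' := by
    rcases mul_eq_zero.1 h9 with h | h
    · linarith
    · exact absurd h h10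
  rw [h11, hr']
  ring

end Dirichlet

section System

variable {X : Type} {d : ℕ} {N : X → ℕ} {α : X → Fin d → ℂ} {Ψ G₀ : ℂ → ℂ} {k κ : ℕ} {η C : ℝ}

/-- the deviation of the windows, prime powers -/
noncomputable def WL (N : X → ℕ) (α : X → Fin d → ℂ) (ρ l y : ℝ) : ℝ :=
  Pl N α y - Pl N α (y ^ l) - ρ * Real.log l

/-- the deviation of the windows, primes -/
noncomputable def WV (N : X → ℕ) (α : X → Fin d → ℂ) (ρ l y : ℝ) : ℝ :=
  Pv N α y - Pv N α (y ^ l) + ρ * Real.log l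

theorem wl_eq {e : X × ℕ → ℕ} (E : Sys N α) (he : Function.Injective e) (ρ l : ℝ) {y : ℝ}
    (hy : 0 < y) : WL N α ρ l y = -Wn (lamS N e) (cS' N α e) ρ l (Real.log y) := by
  unfold WL Wn
  rw [sh_eq E he, sh_eq E he, Real.exp_log hy, Real.rpow_def_of_pos hy, mul_comm l]
  ring

theorem wl_mean {e : X × ℕ → ℕ} (E : Sys N α) (he : Function.Injective e) (ρ l : ℝ) :
    Tendsto (fun Y : ℝ => (∫ y in Real.exp 1..Y, |WL N α ρ l y| / y) / Real.log Y) atTop (𝓝 0) ↔
      Tendsto (fun T : ℝ => (∫ u in (1 : ℝ)..T, |Wn (lamS N e) (cS' N α e) ρ l u|) / T) atTop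
        (𝓝 0) := by
  rw [tendsto_exp_iff]
  refine tendsto_congr' ?_
  filter_upwards [eventually_ge_atTop 1] with T hT
  rw [Real.log_exp, ← cov_ii _ hT]
  congr 1
  refine intervalIntegral.integral_congr fun Y hY => ?_
  rw [uIcc_of_le (Real.exp_le_exp.2 hT)] at hY
  show |WL N α ρ l Y| / Y = |Wn (lamS N e) (cS' N α e) ρ l (Real.log Y)| / Y
  rw [wl_eq E he ρ l ((Real.exp_pos 1).trans_le hY.1), abs_neg]

/-- **One window determines order and zeros**: prime powers -/
theorem window_pl (H : Mc N α Ψ G₀ k κ η C) (ρ : ℝ) {l : ℝ} (hl : 0 < l) (hl1 : l < 1) :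
    Tendsto (fun Y : ℝ => (∫ y in Real.exp 1..Y, |WL N α ρ l y| / y) / Real.log Y) atTop (𝓝 0) ↔
    (∀ s : ℂ, 0 < s.re → Ψ s ≠ 0) ∧ ∃ m : ℤ, ρ = m ∧ meromorphicOrderAt Ψ 0 = m := by
  obtain ⟨e, g, p, he, Q⟩ := H.cn
  have hord := (mero_of Q.hg Q.hg0 (local_form H.hη H.hΨ Q.near)).2
  have t := cn_window_one Q ρ hl hl1
  rw [H.zf] at t
  have e1 : (p : ℝ) = (k : ℕ) + ρ ↔ ∃ m : ℤ, ρ = m ∧ meromorphicOrderAt Ψ 0 = m := by
    rw [hord]
    constructor
    · intro h
      refine ⟨(p : ℤ) - k, ?_, rfl⟩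
      push_cast
      linarith
    · rintro ⟨m, h1, h2⟩
      have h3 : (p : ℤ) - (k : ℤ) = m := by exact_mod_cast h2
      rw [h1, ← h3]
      push_cast
      ring
  rw [e1] at t
  rw [wl_mean H.E he]
  exact t

theorem wl_bdd_iff {e : X × ℕ → ℕ} (E : Sys N α) (he : Function.Injective e) (ρ l B : ℝ) :
    (∀ᶠ Y : ℝ in atTop, ∫ y in Real.exp 1..Y, |WL N α ρ l y| / y ≤ B * Real.log Y) ↔
      ∀ᶠ T : ℝ in atTop, ∫ u in (1 : ℝ)..T, |Wn (lamS N e) (cS' N α e) ρ l u| ≤ B * T := by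
  rw [eventually_exp_iff (f := fun Y => ∫ y in Real.exp 1..Y, |WL N α ρ l y| / y ≤
    B * Real.log Y)]
  refine eventually_congr ?_
  filter_upwards [eventually_ge_atTop 1] with T hT
  have : ∫ y in Real.exp 1..Real.exp T, |WL N α ρ l y| / y =
      ∫ u in (1 : ℝ)..T, |Wn (lamS N e) (cS' N α e) ρ l u| := by
    rw [← cov_ii _ hT]
    refine intervalIntegral.integral_congr fun Y hY => ?_
    rw [uIcc_of_le (Real.exp_le_exp.2 hT)] at hY
    show |WL N α ρ l Y| / Y = |Wn (lamS N e) (cS' N α e) ρ l (Real.log Y)| / Y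
    rw [wl_eq E he ρ l ((Real.exp_pos 1).trans_le hY.1), abs_neg]
  rw [Real.log_exp, this]

theorem bm_pl_rpow (H : Mc N α Ψ G₀ k κ η C) {l : ℝ} (hl1 : l ≤ 1) :
    BM fun y => Pl N α (y ^ l) := by
  obtain ⟨e, g, p, he, Q⟩ := H.cn
  set lam := lamS N e
  set c := cS' N α e
  have hm : Measurable fun y : ℝ => -Sh lam c (l * Real.log y) :=
    ((sh_meas Q.D).comp (Real.measurable_log.const_mul l)).neg
  have heq : ∀ y : ℝ, 0 < y → -Sh lam c (l * Real.log y) = Pl N α (y ^ l) := by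
    intro y hy
    rw [sh_eq H.E he, Real.rpow_def_of_pos hy, mul_comm l, neg_neg]
  refine ⟨?_, fun Y => ?_⟩
  · refine hm.aestronglyMeasurable.congr ?_
    filter_upwards [ae_restrict_mem measurableSet_Ioi] with y hy
    exact heq y ((Real.exp_pos 1).trans hy)
  · set S₀ : ℝ := ∑' n, |c n| * Real.exp (-(1 * lam n)) with hS₀
    have h0 : 0 ≤ S₀ := tsum_nonneg fun n => by positivity
    refine ⟨Real.exp (1 * Real.log Y) * S₀, fun y h1 h2 => ?_⟩
    have hy0 : 0 < y := (Real.exp_pos 1).trans_le h1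
    show |Pl N α (y ^ l)| ≤ _
    rw [← heq y hy0, abs_neg]
    refine (sh_le Q.D _).trans ?_
    rw [← hS₀]
    refine mul_le_mul_of_nonneg_right (Real.exp_le_exp.2 ?_) h0
    rw [one_mul, one_mul]
    have h3 := one_le_log h1
    have h4 := Real.log_le_log hy0 h2
    nlinarith

theorem bm_pv_rpow (E : Sys N α) {l : ℝ} (hl1 : l ≤ 1) : BM fun y => Pv N α (y ^ l) := by
  classical
  have hfl : ∀ y : ℝ, 0 ≤ y → Pv N α y = Pv N α ((⌊y⌋₊ : ℕ) : ℝ) := by
    intro y hy0
    unfold Pv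
    refine finsum_congr fun v => ?_
    have : ((N v : ℝ) ≤ y) = ((N v : ℝ) ≤ ((⌊y⌋₊ : ℕ) : ℝ)) := by
      rw [Nat.cast_le, Nat.le_floor_iff hy0]
    rw [this]
  refine ⟨?_, fun Y => ⟨∑ v ∈ (E.fin_le Y).toFinset, |cv N α v|, fun y h1 hy => ?_⟩⟩
  · have h1 : Measurable fun y : ℝ => Pv N α ((⌊y ^ l⌋₊ : ℕ) : ℝ) :=
      (measurable_from_nat (f := fun n : ℕ => Pv N α (n : ℝ))).comp
        (Nat.measurable_floor.comp (measurable_id.pow_const l))
    refine h1.aestronglyMeasurable.congr ?_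
    filter_upwards [ae_restrict_mem measurableSet_Ioi] with y hy
    have hy0 : 0 < y := (Real.exp_pos 1).trans hy
    exact (hfl _ (by positivity)).symm
  · show |Pv N α (y ^ l)| ≤ _
    rw [pv_eq E]
    refine (Finset.abs_sum_le_sum_abs _ _).trans ?_
    refine Finset.sum_le_sum_of_subset_of_nonneg (fun v hv => ?_) fun _ _ _ => abs_nonneg _
    rw [Set.Finite.mem_toFinset] at hv ⊢
    have hy1 : 1 ≤ y := by linarith [Real.add_one_le_exp 1]
    have h2 : y ^ l ≤ y := by
      calc y ^ l ≤ y ^ (1 : ℝ) := Real.rpow_le_rpow_of_exponent_le hy1 hl1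
        _ = y := Real.rpow_one y
    exact (le_trans hv h2).trans hy

/-- the windows over the primes and over the prime powers -/
theorem wl_iff_wv (H : Mc N α Ψ G₀ k κ η C) (ρ : ℝ) {c : ℝ} (hc : Tendsto (Sq N α) atTop (𝓝 c))
    {l : ℝ} (hl : 0 < l) (hl1 : l < 1) :
    Tendsto (fun Y : ℝ => (∫ y in Real.exp 1..Y, |WL N α ρ l y| / y) / Real.log Y) atTop (𝓝 0) ↔
    Tendsto (fun Y : ℝ => (∫ y in Real.exp 1..Y, |WV N α ρ l y| / y) / Real.log Y) atTop
      (𝓝 0) := by
  have b1 : BM (WL N α ρ l) := ((bm_pl H).sub (bm_pl_rpow H hl1.le)).sub (BM.const _)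
  have b2 : BM (WV N α ρ l) := ((bm_pv H.E).sub (bm_pv_rpow H.E hl1.le)).add (BM.const _)
  have h1 := tail_lim H.E hc
  have h2 : Tendsto (fun y : ℝ => y ^ l) atTop atTop := tendsto_rpow_atTop hl
  have h3 := (h1.comp h2).sub h1
  rw [sub_self] at h3
  have h4 : Tendsto (fun y => -WL N α ρ l y - WV N α ρ l y) atTop (𝓝 0) := by
    refine h3.congr fun y => ?_
    simp only [Function.comp_apply]
    unfold WL WV
    ring
  have h5 := lmean_iff b1.neg.li b2.li h4
  simp only [abs_neg] at h5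
  exact h5

/-- **One window determines order and zeros**: primes -/
theorem window_pv (H : Mc N α Ψ G₀ k κ η C) (ρ : ℝ) {c : ℝ} (hc : Tendsto (Sq N α) atTop (𝓝 c))
    {l : ℝ} (hl : 0 < l) (hl1 : l < 1) :
    Tendsto (fun Y : ℝ => (∫ y in Real.exp 1..Y, |WV N α ρ l y| / y) / Real.log Y) atTop (𝓝 0) ↔
    (∀ s : ℂ, 0 < s.re → Ψ s ≠ 0) ∧ ∃ m : ℤ, ρ = m ∧ meromorphicOrderAt Ψ 0 = m := by
  rw [← wl_iff_wv H ρ hc hl hl1]
  exact window_pl H ρ hl hl1

/-- the windows of `log P` and of the sum over the prime powers have bounded difference -/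
theorem close_w (H : Mc N α Ψ G₀ k κ η C) (ρ : ℝ) {l : ℝ} (hl : 0 < l) (hl1 : l < 1) :
    ∃ M : ℝ, ∀ y : ℝ, Real.exp 1 ≤ y → |WV N α ρ l y - -WL N α ρ l y| ≤ M := by
  obtain ⟨M, hM⟩ := close H.E
  obtain ⟨M', hM'⟩ := ((bm_pv_rpow H.E hl1.le).add (bm_pl_rpow H hl1.le)).2 (Real.exp (1 / l))
  refine ⟨M + (|M| + |M'|), fun y hy => ?_⟩
  have hy0 : 0 < y := (Real.exp_pos 1).trans_le hy
  have h1 : WV N α ρ l y - -WL N α ρ l y =
      (Pv N α y + Pl N α y) - (Pv N α (y ^ l) + Pl N α (y ^ l)) := by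
    unfold WV WL
    ring
  rw [h1]
  refine (abs_sub _ _).trans (add_le_add (hM y hy) ?_)
  rcases le_or_gt y (Real.exp (1 / l)) with h | h
  · have := hM' y hy h
    have h2 := le_abs_self M'
    have h3 := abs_nonneg M
    linarith
  · have h4 : Real.exp 1 ≤ y ^ l := by
      rw [Real.rpow_def_of_pos hy0]
      apply Real.exp_le_exp.2
      have h5 : 1 / l < Real.log y := (Real.lt_log_iff_exp_lt hy0).2 h
      rw [div_lt_iff₀ hl] at h5
      exact h5.le
    have := hM _ h4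
    have h2 := le_abs_self M
    have h3 := abs_nonneg M'
    linarith

/-- **Bounded windows are enough**: prime powers and primes -/
theorem window_bdd (H : Mc N α Ψ G₀ k κ η C) : List.TFAE [
    ∀ s : ℂ, 0 < s.re → Ψ s ≠ 0,
    ∃ l : ℝ, 0 < l ∧ l < 1 ∧ ∃ B : ℝ, ∀ᶠ Y : ℝ in atTop,
      ∫ y in Real.exp 1..Y, |WL N α 0 l y| / y ≤ B * Real.log Y,
    ∀ l : ℝ, 0 < l → l < 1 → ∃ B : ℝ, ∀ᶠ Y : ℝ in atTop,
      ∫ y in Real.exp 1..Y, |WL N α 0 l y| / y ≤ B * Real.log Y,
    ∃ l : ℝ, 0 < l ∧ l < 1 ∧ ∃ B : ℝ, ∀ᶠ Y : ℝ in atTop,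
      ∫ y in Real.exp 1..Y, |WV N α 0 l y| / y ≤ B * Real.log Y,
    ∀ l : ℝ, 0 < l → l < 1 → ∃ B : ℝ, ∀ᶠ Y : ℝ in atTop,
      ∫ y in Real.exp 1..Y, |WV N α 0 l y| / y ≤ B * Real.log Y] := by
  obtain ⟨e, g, p, he, Q⟩ := H.cn
  have t := cn_window_bdd Q
  rw [H.zf] at t
  have hsw : ∀ l : ℝ, 0 < l → l < 1 → ((∃ B : ℝ, ∀ᶠ Y : ℝ in atTop,
      ∫ y in Real.exp 1..Y, |WL N α 0 l y| / y ≤ B * Real.log Y) ↔
      ∃ B : ℝ, ∀ᶠ Y : ℝ in atTop, ∫ y in Real.exp 1..Y, |WV N α 0 l y| / y ≤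
        B * Real.log Y) := by
    intro l hl hl1
    obtain ⟨M, hM⟩ := close_w H 0 hl hl1
    have b1 : BM (WL N α 0 l) := ((bm_pl H).sub (bm_pl_rpow H hl1.le)).sub (BM.const _)
    have b2 : BM (WV N α 0 l) := ((bm_pv H.E).sub (bm_pv_rpow H.E hl1.le)).add (BM.const _)
    constructor
    · intro h
      refine bmean_of b1.neg.li b2.li (M := M) (fun x hx => ?_) ?_
      · rw [abs_sub_comm]
        exact hM x hx
      · simp only [abs_neg]
        exact h
    · intro h
      have h1 := bmean_of b2.li b1.neg.li hM h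
      simpa only [abs_neg] using h1
  tfae_have 1 ↔ 2 := by
    simp only [wl_bdd_iff H.E he]
    exact t.out 0 1
  tfae_have 1 ↔ 3 := by
    simp only [wl_bdd_iff H.E he]
    exact t.out 0 2
  tfae_have 2 → 4 := fun ⟨l, hl, hl1, h⟩ => ⟨l, hl, hl1, (hsw l hl hl1).1 h⟩
  tfae_have 4 → 2 := fun ⟨l, hl, hl1, h⟩ => ⟨l, hl, hl1, (hsw l hl hl1).2 h⟩
  tfae_have 3 → 5 := fun h l hl hl1 => (hsw l hl hl1).1 (h l hl hl1)
  tfae_have 5 → 3 := fun h l hl hl1 => (hsw l hl hl1).2 (h l hl hl1)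
  tfae_finish

end System

end Pool.Agent.Q5.MS
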