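import Pool.Agent.Q5.MS.Window2

/-!
# The windows `(x^l, x]`: growth, continuation and radial order without any continuation hypothesis
-/

set_option autoImplicit false

open MeasureTheory Filter Topology Set Complex
open Pool.Agent.TH942.ES
open Pool.Agent.TH942.SL
open Pool.Agent.TH270.MS
open Pool.Agent.TH942.LS (Dat)
open Pool.Agent.TH270.RS (cS' dat' DD_neg)
open Pool.Agent.W263.BSD (LInt lap lapC lapC_ofReal lapC_differentiableAt)
open scoped ENNReal

namespace Pool.Agent.Q5.MS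

section Laplace

/-- `∫_1^T |f| = O(e^{(s+ε)T})` for all `ε > 0` -/
def Gr (f : ℝ → ℝ) (s : ℝ) : Prop := ∀ ε : ℝ, 0 < ε → ∃ B : ℝ, ∀ᶠ T : ℝ in atTop,
  ∫ u in (1 : ℝ)..T, |f u| ≤ B * Real.exp ((s + ε) * T)

theorem lint_of_gr {f : ℝ → ℝ} (hf : Measurable f) {C σ : ℝ}
    (hC : ∀ u, |f u| ≤ C * Real.exp (σ * u)) {s : ℝ} (hs : 0 ≤ s) (h : Gr f s) {x : ℝ}
    (hx : s < x) : LInt f x := by
  -- reduce to `s = 0` for `f(u) e^{-s u}`
  set g : ℝ → ℝ := fun u => f u * Real.exp (-(s * u)) with hg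
  have hgm : Measurable g := hf.mul (by fun_prop)
  have hgC : ∀ u, |g u| ≤ C * Real.exp ((σ - s) * u) := by
    intro u
    rw [hg]
    simp only
    rw [abs_mul, abs_of_pos (Real.exp_pos _)]
    calc |f u| * Real.exp (-(s * u)) ≤ C * Real.exp (σ * u) * Real.exp (-(s * u)) :=
          mul_le_mul_of_nonneg_right (hC u) (Real.exp_pos _).le
      _ = _ := by
        rw [mul_assoc, ← Real.exp_add]
        congr 2
        ring
  have hi : ∀ a b : ℝ, IntegrableOn f (Ioc a b) := by
    intro a b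
    have h1 : IntegrableOn (fun u : ℝ => C * Real.exp (σ * u)) (Ioc a b) :=
      (Continuous.integrableOn_Icc (by fun_prop)).mono_set Ioc_subset_Icc_self
    exact h1.mono' hf.aestronglyMeasurable (Eventually.of_forall fun u => hC u)
  have hig : ∀ a b : ℝ, IntegrableOn g (Ioc a b) := by
    intro a b
    have h1 : IntegrableOn (fun u : ℝ => C * Real.exp ((σ - s) * u)) (Ioc a b) :=
      (Continuous.integrableOn_Icc (by fun_prop)).mono_set Ioc_subset_Icc_self
    exact h1.mono' hgm.aestronglyMeasurable (Eventually.of_forall fun u => hgC u)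
  -- the tail integral: sum over unit intervals
  have hgr : ∀ ε : ℝ, 0 < ε → ∃ B : ℝ, ∀ᶠ T : ℝ in atTop,
      ∫ u in (1 : ℝ)..T, |g u| ≤ B * Real.exp (ε * T) := by
    intro ε hε
    obtain ⟨B, hB⟩ := h (ε / 2) (by positivity)
    obtain ⟨T₀, hT₀⟩ := hB.exists_forall_of_atTop
    obtain ⟨n₀, hn₀⟩ := exists_nat_ge (max T₀ 1)
    have hn1 : (1 : ℝ) ≤ n₀ := (le_max_right _ _).trans hn₀
    have hnT : T₀ ≤ n₀ := (le_max_left _ _).trans hn₀
    have hB0 : 0 ≤ B := by
      have h1 := hT₀ n₀ hnT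
      have h2 : 0 ≤ ∫ u in (1 : ℝ)..n₀, |f u| :=
        intervalIntegral.integral_nonneg hn1 fun u _ => abs_nonneg _
      exact nonneg_of_mul_nonneg_left (h2.trans h1) (Real.exp_pos _)
    set J : ℝ := ∫ u in (1 : ℝ)..n₀, |g u| with hJ
    have hJ0 : 0 ≤ J := intervalIntegral.integral_nonneg hn1 fun u _ => abs_nonneg _
    set D : ℝ := B * Real.exp (s + ε / 2) with hD
    have hD0 : 0 ≤ D := by positivity
    have iab : ∀ a b : ℝ, a ≤ b → IntervalIntegrable (fun u => |g u|) volume a b := by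
      intro a b hab
      rw [intervalIntegrable_iff_integrableOn_Ioc_of_le hab]
      exact (hig a b).abs
    have ifab : ∀ a b : ℝ, a ≤ b → IntervalIntegrable (fun u => |f u|) volume a b := by
      intro a b hab
      rw [intervalIntegrable_iff_integrableOn_Ioc_of_le hab]
      exact (hi a b).abs
    -- one interval
    have hone : ∀ k : ℕ, ∫ u in ((n₀ : ℝ) + k)..((n₀ : ℝ) + (k + 1)), |g u| ≤
        D * Real.exp (ε / 2 * ((n₀ : ℝ) + k)) := by
      intro k
      have hk0 : (0 : ℝ) ≤ k := Nat.cast_nonneg k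
      set A : ℝ := (n₀ : ℝ) + k with hA
      have hA1 : 1 ≤ A := by linarith
      have hAA : A ≤ (n₀ : ℝ) + (k + 1) := by linarith
      have e1 : ∫ u in A..((n₀ : ℝ) + (k + 1)), |g u| ≤
          ∫ u in A..((n₀ : ℝ) + (k + 1)), Real.exp (-(s * A)) * |f u| := by
        refine intervalIntegral.integral_mono_on hAA (iab _ _ hAA) ((ifab _ _ hAA).const_mul _)
          fun u hu => ?_
        rw [hg]
        simp only
        rw [abs_mul, abs_of_pos (Real.exp_pos _), mul_comm]
        refine mul_le_mul_of_nonneg_right ?_ (abs_nonneg _)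
        apply Real.exp_le_exp.2
        have := mul_le_mul_of_nonneg_left hu.1 hs
        linarith
      rw [intervalIntegral.integral_const_mul] at e1
      have e2 : ∫ u in A..((n₀ : ℝ) + (k + 1)), |f u| ≤ B * Real.exp ((s + ε / 2) *
          ((n₀ : ℝ) + (k + 1))) := by
        refine le_trans ?_ (hT₀ _ (by linarith))
        exact intervalIntegral.integral_mono_interval hA1 hAA le_rfl
          (Eventually.of_forall fun u => abs_nonneg _) (ifab _ _ (by linarith))
      have e3 := mul_le_mul_of_nonneg_left e2 (Real.exp_pos (-(s * A))).le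
      refine e1.trans (e3.trans (le_of_eq ?_))
      rw [hD]
      have e4 : Real.exp (-(s * A)) * (B * Real.exp ((s + ε / 2) * ((n₀ : ℝ) + (k + 1)))) =
          B * (Real.exp (-(s * A)) * Real.exp ((s + ε / 2) * ((n₀ : ℝ) + (k + 1)))) := by ring
      rw [e4, ← Real.exp_add, mul_assoc, ← Real.exp_add]
      congr 2
      rw [hA]
      ring
    -- the sum
    have hsum : ∀ n : ℕ, ∫ u in (1 : ℝ)..((n₀ : ℝ) + n), |g u| ≤
        J + n * (D * Real.exp (ε / 2 * ((n₀ : ℝ) + n))) := by
      intro n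
      induction n with
      | zero => simp [hJ]
      | succ n ih =>
        have hk0 : (0 : ℝ) ≤ n := Nat.cast_nonneg n
        have e1 := intervalIntegral.integral_add_adjacent_intervals
          (iab 1 ((n₀ : ℝ) + n) (by linarith)) (iab ((n₀ : ℝ) + n) ((n₀ : ℝ) + (n + 1))
            (by linarith))
        push_cast
        rw [← e1]
        have e2 := hone n
        have e3 : D * Real.exp (ε / 2 * ((n₀ : ℝ) + n)) ≤
            D * Real.exp (ε / 2 * ((n₀ : ℝ) + (n + 1))) := by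
          refine mul_le_mul_of_nonneg_left (Real.exp_le_exp.2 ?_) hD0
          exact mul_le_mul_of_nonneg_left (by linarith) (by positivity)
        have e4 := mul_le_mul_of_nonneg_left e3 hk0
        linarith
    refine ⟨J + D * (2 / ε) * Real.exp (ε / 2) * Real.exp ε, ?_⟩
    filter_upwards [eventually_ge_atTop (n₀ : ℝ)] with T hT
    have hT1 : 1 ≤ T := hn1.trans hT
    set n : ℕ := ⌈T - n₀⌉₊ with hn
    have hn2 : T - n₀ ≤ n := Nat.le_ceil _
    have hn3 : (n : ℝ) < T - n₀ + 1 := Nat.ceil_lt_add_one (by linarith)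
    have e1 : ∫ u in (1 : ℝ)..T, |g u| ≤ ∫ u in (1 : ℝ)..((n₀ : ℝ) + n), |g u| :=
      intervalIntegral.integral_mono_interval le_rfl hT1 (by linarith)
        (Eventually.of_forall fun u => abs_nonneg _) (iab _ _ (by linarith))
    have e2 := hsum n
    have e3 : (n : ℝ) ≤ 2 / ε * Real.exp (ε / 2 * (T + 1)) := by
      have h1 := Real.add_one_le_exp (ε / 2 * (T + 1))
      have h2 : ε / 2 * (T + 1) ≤ Real.exp (ε / 2 * (T + 1)) := by linarith
      have h3 : (n : ℝ) ≤ T + 1 := by linarith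
      calc (n : ℝ) ≤ T + 1 := h3
        _ = 2 / ε * (ε / 2 * (T + 1)) := by field_simp
        _ ≤ _ := mul_le_mul_of_nonneg_left h2 (by positivity)
    have e4 : Real.exp (ε / 2 * ((n₀ : ℝ) + n)) ≤ Real.exp (ε / 2 * (T + 1)) :=
      Real.exp_le_exp.2 (mul_le_mul_of_nonneg_left (by linarith) (by positivity))
    have e5 : (n : ℝ) * (D * Real.exp (ε / 2 * ((n₀ : ℝ) + n))) ≤
        (2 / ε * Real.exp (ε / 2 * (T + 1))) * (D * Real.exp (ε / 2 * (T + 1))) :=
      mul_le_mul e3 (mul_le_mul_of_nonneg_left e4 hD0) (by positivity) (by positivity)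
    have e6 : (2 / ε * Real.exp (ε / 2 * (T + 1))) * (D * Real.exp (ε / 2 * (T + 1))) =
        D * (2 / ε) * (Real.exp (ε / 2 * (T + 1)) * Real.exp (ε / 2 * (T + 1))) := by ring
    have e7 : Real.exp (ε / 2 * (T + 1)) * Real.exp (ε / 2 * (T + 1)) =
        Real.exp ε * Real.exp (ε * T) := by
      rw [← Real.exp_add, ← Real.exp_add]
      congr 1
      ring
    have e8 : (1 : ℝ) ≤ Real.exp (ε * T) := Real.one_le_exp (by positivity)
    have e9 : (1 : ℝ) ≤ Real.exp (ε / 2) := Real.one_le_exp (by positivity)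
    have e10 : J ≤ J * Real.exp (ε * T) := by nlinarith
    have e11 : D * (2 / ε) * (Real.exp ε * Real.exp (ε * T)) ≤
        D * (2 / ε) * Real.exp (ε / 2) * Real.exp ε * Real.exp (ε * T) := by
      have h1 : 0 ≤ D * (2 / ε) * (Real.exp ε * Real.exp (ε * T)) := by positivity
      have h2 := mul_le_mul_of_nonneg_left e9 h1
      rw [mul_one] at h2
      calc _ ≤ _ := h2
        _ = _ := by ring
    rw [e6, e7] at e5
    calc ∫ u in (1 : ℝ)..T, |g u| ≤ J * Real.exp (ε * T) +
          D * (2 / ε) * Real.exp (ε / 2) * Real.exp ε * Real.exp (ε * T) := by linarith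
      _ = _ := by ring
  have h2 : LInt g (x - s) := lint_of_mean hgm hgC hgr (by linarith)
  unfold LInt at h2 ⊢
  refine h2.congr_fun (fun u _ => ?_) measurableSet_Ioi
  rw [hg]
  simp only
  rw [mul_assoc, ← Real.exp_add]
  congr 2
  ring

theorem gr_of_lint {f : ℝ → ℝ} {s : ℝ} (hs : 0 ≤ s) (h : ∀ x : ℝ, s < x → LInt f x) : Gr f s := by
  intro ε hε
  have h1 := h (s + ε) (by linarith)
  unfold LInt at h1
  refine ⟨∫ u in Ioi (0 : ℝ), |f u * Real.exp (-((s + ε) * u))|, ?_⟩
  filter_upwards [eventually_ge_atTop 1] with T hT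
  have hsub : Ioc (1 : ℝ) T ⊆ Ioi 0 := fun u hu => lt_trans one_pos hu.1
  have i1 : IntegrableOn (fun u => |f u * Real.exp (-((s + ε) * u))| * Real.exp ((s + ε) * T))
      (Ioc 1 T) := (h1.mono_set hsub).abs.mul_const _
  have hbd : ∀ u ∈ Ioc (1 : ℝ) T, |f u| ≤ |f u * Real.exp (-((s + ε) * u))| *
      Real.exp ((s + ε) * T) := by
    intro u hu
    rw [abs_mul, abs_of_pos (Real.exp_pos _), mul_assoc, ← Real.exp_add]
    have h2 : (1 : ℝ) ≤ Real.exp (-((s + ε) * u) + (s + ε) * T) := by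
      apply Real.one_le_exp
      have := mul_le_mul_of_nonneg_left hu.2 (by linarith : 0 ≤ s + ε)
      linarith
    nlinarith [abs_nonneg (f u)]
  rw [intervalIntegral.integral_of_le hT]
  calc ∫ u in Ioc 1 T, |f u| ≤
        ∫ u in Ioc 1 T, |f u * Real.exp (-((s + ε) * u))| * Real.exp ((s + ε) * T) := by
        refine integral_mono_of_nonneg (Eventually.of_forall fun u => abs_nonneg _) i1 ?_
        filter_upwards [ae_restrict_mem measurableSet_Ioc] with u hu
        exact hbd u hu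
    _ = (∫ u in Ioc 1 T, |f u * Real.exp (-((s + ε) * u))|) * Real.exp ((s + ε) * T) :=
        integral_mul_const _ _
    _ ≤ _ := by
        refine mul_le_mul_of_nonneg_right ?_ (Real.exp_pos _).le
        exact setIntegral_mono_set h1.abs (Eventually.of_forall fun u => abs_nonneg _)
          hsub.eventuallyLE

end Laplace

section Dirichlet

variable {lam c : ℕ → ℝ} {δ σ : ℝ}

/-- integrability to the right of `s` -/
lemma lint_all' (D : Dat lam c δ σ) (r c₀ : ℝ) {l : ℝ} (hl : 0 < l) (hl1 : l < 1) {s : ℝ}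
    (hs : 0 ≤ s) (h1 : ∀ x : ℝ, s < x → LInt ((Ioi (0 : ℝ)).indicator (Wn lam c r l)) x) {x : ℝ}
    (hx : s < x) : LInt (Er lam c r c₀) x := by
  have key : ∀ n : ℕ, ∀ x : ℝ, s < x → σ < x * (1 / l) ^ n → LInt (Er lam c r c₀) x := by
    intro n
    induction n with
    | zero =>
      intro x _ h
      rw [pow_zero, mul_one] at h
      exact er_int D r c₀ h
    | succ n ih =>
      intro x hx h
      have hx0 : 0 < x := lt_of_le_of_lt hs hx
      have hxl : x < x / l := by
        rw [lt_div_iff₀ hl]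
        nlinarith
      refine lint_step D r c₀ hl hl1 hx0 (h1 x hx) (ih (x / l) (hx.trans hxl) ?_)
      rw [pow_succ] at h
      calc σ < x * ((1 / l) ^ n * (1 / l)) := h
        _ = x / l * (1 / l) ^ n := by ring
  have hx0 : 0 < x := lt_of_le_of_lt hs hx
  have h2 : Tendsto (fun n : ℕ => x * (1 / l) ^ n) atTop atTop :=
    (tendsto_pow_atTop_atTop_of_one_lt ((one_lt_div hl).2 hl1)).const_mul_atTop hx0
  obtain ⟨n, hn⟩ := (h2.eventually_gt_atTop σ).exists
  exact key n x hx hn

lemma er_eq (lam c : ℕ → ℝ) : Er lam c 0 0 = Sh lam c := by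
  funext u
  unfold Er
  simp

/-- **One window and the full sum**: the same growth -/
theorem gr_window (D : Dat lam c δ σ) {l : ℝ} (hl : 0 < l) (hl1 : l < 1) {s : ℝ} (hs : 0 ≤ s) :
    Gr (Wn lam c 0 l) s ↔ ∀ x : ℝ, s < x → LInt (Sh lam c) x := by
  obtain ⟨C₁, -, hb⟩ := wn_le (c := c) D 0 hl1
  have hm := (wn_meas D 0 l).indicator (measurableSet_Ioi (a := (0 : ℝ)))
  have hcong : ∀ T : ℝ, 1 ≤ T → ∫ u in (1 : ℝ)..T, |(Ioi (0 : ℝ)).indicator (Wn lam c 0 l) u| =
      ∫ u in (1 : ℝ)..T, |Wn lam c 0 l u| := by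
    intro T hT
    refine intervalIntegral.integral_congr fun u hu => ?_
    rw [uIcc_of_le hT] at hu
    have : u ∈ Ioi (0 : ℝ) := lt_of_lt_of_le one_pos hu.1
    simp only [indicator_of_mem this]
  have hgg : Gr (Wn lam c 0 l) s ↔ Gr ((Ioi (0 : ℝ)).indicator (Wn lam c 0 l)) s := by
    unfold Gr
    refine forall_congr' fun ε => forall_congr' fun _ => exists_congr fun B => ?_
    refine eventually_congr ?_
    filter_upwards [eventually_ge_atTop 1] with T hT
    rw [hcong T hT]
  rw [hgg]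
  constructor
  · intro h x hx
    have h1 : ∀ x : ℝ, s < x → LInt ((Ioi (0 : ℝ)).indicator (Wn lam c 0 l)) x :=
      fun x hx => lint_of_gr hm hb hs h hx
    have h2 := lint_all' D 0 0 hl hl1 hs h1 hx
    rwa [er_eq] at h2
  · intro h
    refine gr_of_lint hs fun x hx => ?_
    have hx0 : 0 < x := lt_of_le_of_lt hs hx
    have hxl : x < x / l := by
      rw [lt_div_iff₀ hl]
      nlinarith
    have h1 := h x hx
    have h2 := h (x / l) (hx.trans hxl)
    unfold LInt at h1 h2 ⊢
    have h3 : IntegrableOn (fun u : ℝ => Sh lam c (l * u) * Real.exp (-(x * u))) (Ioi 0) := by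
      have h3 := (integrableOn_Ioi_comp_mul_left_iff
        (fun u : ℝ => Sh lam c u * Real.exp (-(x / l * u))) 0 hl).2 (by rwa [mul_zero])
      refine h3.congr_fun (fun u _ => ?_) measurableSet_Ioi
      simp only
      congr 2
      field_simp
    refine (h1.sub h3).congr_fun (fun u hu => ?_) measurableSet_Ioi
    simp only [Pi.sub_apply]
    rw [indicator_of_mem hu]
    unfold Wn
    ring

/-- the continuation of the exponential to `Re w > s` -/
theorem cont_gt (D : Dat lam c δ σ) {s : ℝ} (h : ∀ x : ℝ, s < x → LInt (Sh lam c) x) :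
    ∃ F : ℂ → ℂ, (∀ w : ℂ, s < w.re → DifferentiableAt ℂ F w ∧ F w ≠ 0) ∧
      (∀ w : ℂ, σ < w.re → F w = exp (-DD lam c w)) ∧
      ∀ w : ℂ, F w = exp (-(w * lapC (Sh lam c) w)) := by
  refine ⟨fun w => exp (-(w * lapC (Sh lam c) w)), fun w hw => ⟨?_, exp_ne_zero _⟩,
    fun w hw => ?_, fun _ => rfl⟩
  · exact (differentiableAt_id.mul
      (lapC_differentiableAt (sh_meas D) (fun x hx => h x hx) hw)).neg.cexp
  · have hs0 : w ≠ 0 := by
      rintro rfl
      have := D.σ0
      simp at hw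
      linarith
    simp only
    rw [← er_eq, er_lapC D 0 0 w, er_lap D 0 0 hw]
    congr 2
    rw [Complex.ofReal_zero, zero_mul, add_zero, sub_zero]
    field_simp

/-- the iteration lemma -/
theorem iter_log {A : ℝ → ℝ} (hA : ContinuousOn A (Ioi 0)) {C₀ : ℝ} (hC₀ : 0 ≤ C₀)
    (h : ∀ l : ℝ, 0 < l → l < 1 → ∃ x₀ : ℝ, 0 < x₀ ∧ ∀ x : ℝ, 0 < x → x < x₀ →
      |A x - A (x / l)| ≤ C₀) :
    Tendsto (fun x => A x / Real.log x) (𝓝[>] 0) (𝓝 0) := by
  rw [Metric.tendsto_nhds]
  intro ε hε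
  set t : ℝ := 2 * (C₀ + 1) / ε + 1 with ht
  have ht0 : 0 < t := by positivity
  have hCt : C₀ / t < ε / 2 := by
    rw [div_lt_iff₀ ht0, ht]
    have : ε / 2 * (2 * (C₀ + 1) / ε + 1) = (C₀ + 1) + ε / 2 := by field_simp
    rw [this]
    linarith
  set l : ℝ := Real.exp (-t) with hl
  have hl0 : 0 < l := Real.exp_pos _
  have hl1 : l < 1 := by rw [hl, Real.exp_lt_one_iff]; linarith
  obtain ⟨x₀, hx₀, hx⟩ := h l hl0 hl1
  have hxl : x₀ < x₀ / l := by
    rw [lt_div_iff₀ hl0]
    nlinarith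
  obtain ⟨K₁, hK₁⟩ := (isCompact_Icc (a := x₀) (b := x₀ / l)).exists_bound_of_continuousOn
    (hA.mono fun y hy => show (0 : ℝ) < y from lt_of_lt_of_le hx₀ hy.1)
  set K₂ : ℝ := K₁ + C₀ / t * |Real.log (x₀ / l)| with hK₂
  have hlog : ∀ x : ℝ, 0 < x → Real.log (x / l) = Real.log x + t := by
    intro x hx
    rw [Real.log_div hx.ne' hl0.ne', hl, Real.log_exp]
    ring
  have hbase : ∀ x : ℝ, x₀ ≤ x → x ≤ x₀ / l → |A x| + C₀ / t * Real.log x ≤ K₂ := by
    intro x h1 h2
    have h3 := hK₁ x ⟨h1, h2⟩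
    rw [Real.norm_eq_abs] at h3
    have h4 : Real.log x ≤ |Real.log (x₀ / l)| :=
      (Real.log_le_log (lt_of_lt_of_le hx₀ h1) h2).trans (le_abs_self _)
    have h5 := mul_le_mul_of_nonneg_left h4 (by positivity : 0 ≤ C₀ / t)
    rw [hK₂]
    linarith
  have hstep : ∀ x : ℝ, 0 < x → x < x₀ → |A x| + C₀ / t * Real.log x ≤
      |A (x / l)| + C₀ / t * Real.log (x / l) := by
    intro x h1 h2
    have h3 := hx x h1 h2
    have h4 : |A x| ≤ |A x - A (x / l)| + |A (x / l)| := by
      have := abs_add_le (A x - A (x / l)) (A (x / l))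
      rwa [sub_add_cancel] at this
    have h5 : C₀ / t * Real.log (x / l) = C₀ / t * Real.log x + C₀ := by
      rw [hlog x h1, mul_add]
      congr 1
      field_simp
    linarith
  have key : ∀ n : ℕ, ∀ x : ℝ, 0 < x → x < x₀ → x₀ ≤ x * (1 / l) ^ n →
      |A x| + C₀ / t * Real.log x ≤ K₂ := by
    intro n
    induction n with
    | zero =>
      intro x _ h2 h3
      rw [pow_zero, mul_one] at h3
      linarith
    | succ n ih =>
      intro x h1 h2 h3
      refine (hstep x h1 h2).trans ?_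
      rcases le_or_gt x₀ (x / l) with h4 | h4
      · exact hbase _ h4 (div_le_div_of_nonneg_right h2.le hl0.le)
      · refine ih (x / l) (by positivity) h4 ?_
        rw [pow_succ] at h3
        calc x₀ ≤ x * ((1 / l) ^ n * (1 / l)) := h3
          _ = x / l * (1 / l) ^ n := by ring
  have hall : ∀ x : ℝ, 0 < x → x < x₀ → |A x| + C₀ / t * Real.log x ≤ K₂ := by
    intro x h1 h2
    have h3 : Tendsto (fun n : ℕ => x * (1 / l) ^ n) atTop atTop :=
      (tendsto_pow_atTop_atTop_of_one_lt ((one_lt_div hl0).2 hl1)).const_mul_atTop h1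
    obtain ⟨n, hn⟩ := (h3.eventually_ge_atTop x₀).exists
    exact key n x h1 h2 hn
  have h1 : ∀ᶠ x in 𝓝[>] (0 : ℝ), Real.log x < -(2 * (|K₂| + 1) / ε) := by
    have := Real.tendsto_log_nhdsGT_zero.eventually_lt_atBot (-(2 * (|K₂| + 1) / ε))
    exact this
  have h2 : ∀ᶠ x in 𝓝[>] (0 : ℝ), x < x₀ := nhdsWithin_le_nhds (gt_mem_nhds hx₀)
  filter_upwards [h1, h2, self_mem_nhdsWithin] with x h3 h4 h5
  have hx0 : 0 < x := h5
  have h6 := hall x hx0 h4
  have h7 : 0 < 2 * (|K₂| + 1) / ε := by positivity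
  have h8 : 0 < -Real.log x := by linarith
  rw [Real.dist_eq, sub_zero, abs_div, abs_of_neg (by linarith : Real.log x < 0),
    div_lt_iff₀ h8]
  have h9 : |K₂| + 1 < ε / 2 * -Real.log x := by
    have h10 : 2 * (|K₂| + 1) / ε < -Real.log x := by linarith
    rw [div_lt_iff₀ hε] at h10
    linarith
  have h10 : C₀ / t * -Real.log x ≤ ε / 2 * -Real.log x :=
    mul_le_mul_of_nonneg_right hCt.le h8.le
  have h11 := le_abs_self K₂
  linarith

lemma lint_h {x : ℝ} (hx : 0 < x) : LInt (Sh lamh ch) x := by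
  have := er_int (dat_h (σ := x / 2) (by linarith)) 0 0 (x := x) (by linarith)
  rwa [er_eq] at this

lemma lap_h {x : ℝ} (hx : 0 < x) :
    x * lap (Sh lamh ch) x = -Real.log (1 - Real.exp (-x)) := by
  have h1 := er_lap (dat_h (σ := x / 2) (by linarith)) 0 0 (s := (x : ℂ)) (by
    rw [Complex.ofReal_re]
    linarith)
  rw [← er_lapC (dat_h (σ := x / 2) (by linarith)) 0 0 (x : ℂ), er_eq, lapC_ofReal,
    dd_h (by simpa using hx)] at h1
  have hx1 : Real.exp (-x) < 1 := by rw [Real.exp_lt_one_iff]; linarith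
  have h2 : Complex.log (1 - Complex.exp (-(x : ℂ))) = ((Real.log (1 - Real.exp (-x)) : ℝ) : ℂ) := by
    rw [Complex.ofReal_log (by linarith)]
    push_cast
    rfl
  rw [h2] at h1
  have h3 : ((lap (Sh lamh ch) x : ℝ) : ℂ) = ((-Real.log (1 - Real.exp (-x)) / x : ℝ) : ℂ) := by
    rw [h1]
    push_cast
    ring
  have h4 : lap (Sh lamh ch) x = -Real.log (1 - Real.exp (-x)) / x := by exact_mod_cast h3
  rw [h4]
  field_simp

/-- **The radial order** from a bound for the windows which is uniform in `l` -/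
theorem radial (D : Dat lam c δ σ) (hint : ∀ x : ℝ, 0 < x → LInt (Sh lam c) x) {ρ M : ℝ}
    (h : ∀ l : ℝ, 0 < l → l < 1 → ∀ᶠ T : ℝ in atTop,
      ∫ u in (1 : ℝ)..T, |Wn lam c ρ l u| ≤ M * T) :
    Tendsto (fun x => -(x * lap (Sh lam c) x) / Real.log x) (𝓝[>] 0) (𝓝 ρ) := by
  set E : ℝ → ℝ := Er lam c ρ 0 with hE
  have hEm : Measurable E := er_meas D ρ 0
  obtain ⟨C₁, hC₁, hb⟩ := er_le D ρ 0
  have hEe : ∀ u, E u = Sh lam c u - ρ * Sh lamh ch u := by
    intro u
    rw [hE]
    unfold Er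
    simp
  have hEi : ∀ x : ℝ, 0 < x → LInt E x := by
    intro x hx
    have h1 := hint x hx
    have h2 := lint_h hx
    unfold LInt at h1 h2 ⊢
    refine (h1.sub (h2.const_mul ρ)).congr_fun (fun u _ => ?_) measurableSet_Ioi
    simp only [Pi.sub_apply]
    rw [hEe]
    ring
  set A : ℝ → ℝ := fun x => x * lap E x with hA
  have hAc : ContinuousOn A (Ioi 0) := by
    intro x hx
    have hx0 : 0 < x := hx
    have h1 : DifferentiableAt ℂ (lapC E) (x : ℂ) :=
      lapC_differentiableAt hEm (fun w hw => hEi w hw) (by simpa using hx0)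
    have h2 : ContinuousAt (fun y : ℝ => (lapC E (y : ℂ)).re) x :=
      Complex.continuous_re.continuousAt.comp
        (h1.continuousAt.comp Complex.continuous_ofReal.continuousAt)
    have h3 : (fun y : ℝ => (lapC E (y : ℂ)).re) = lap E := by
      funext y
      rw [lapC_ofReal, Complex.ofReal_re]
    rw [h3] at h2
    exact (continuousAt_id.mul h2).continuousWithinAt
  set C₀ : ℝ := 2 * (|M| + 1) + 4 * |ρ| + 1 with hC₀
  have hC₀0 : 0 ≤ C₀ := by positivity
  have hlim : Tendsto (fun x => A x / Real.log x) (𝓝[>] 0) (𝓝 0) := by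
    refine iter_log hAc hC₀0 fun l hl hl1 => ?_
    obtain ⟨C₂, hC₂, hw⟩ := wn_le (c := c) D ρ hl1
    set W : ℝ → ℝ := (Ioi (0 : ℝ)).indicator (Wn lam c ρ l) with hW
    have hWm : Measurable W := (wn_meas D ρ l).indicator measurableSet_Ioi
    have hWb : ∀ᶠ T : ℝ in atTop, ∫ u in (1 : ℝ)..T, |W u| ≤ (|M| + 1) * T := by
      filter_upwards [h l hl hl1, eventually_ge_atTop 1] with T h1 h2
      have h3 : ∫ u in (1 : ℝ)..T, |W u| = ∫ u in (1 : ℝ)..T, |Wn lam c ρ l u| := by
        refine intervalIntegral.integral_congr fun u hu => ?_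
        rw [uIcc_of_le h2] at hu
        have : u ∈ Ioi (0 : ℝ) := lt_of_lt_of_le one_pos hu.1
        simp only [hW, indicator_of_mem this]
      rw [h3]
      have h5 : M * T ≤ |M| * T := mul_le_mul_of_nonneg_right (le_abs_self M) (by linarith)
      linarith
    obtain ⟨hWi, hWs⟩ := mean_lap hWm hw (by positivity : 0 < |M| + 1) hWb
    set K : ℝ := 2 * C₁ * Real.exp (σ * (1 / l)) + C₂ * Real.exp (σ * (1 / l)) with hK
    have hK0 : 0 ≤ K := by positivity
    set K' : ℝ := K * Real.exp (1 / l) with hK'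
    have hK'0 : 0 ≤ K' := by positivity
    -- the error
    have herr : ∀ u : ℝ, 0 < u → |E u - E (l * u) - W u| ≤ 4 * |ρ| + K' * Real.exp (-u) := by
      intro u hu0
      have hWu : W u = Wn lam c ρ l u := by
        rw [hW, indicator_of_mem (show u ∈ Ioi (0 : ℝ) from hu0)]
      rcases le_or_gt (1 / l) u with h | h
      · have hlu : 1 ≤ l * u := by
          rw [div_le_iff₀ hl] at h
          linarith
        have hu1 : 1 ≤ u := by nlinarith
        have e1 := harm_near hu1
        have e2 := harm_near hlu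
        have e3 : 2 / u ≤ 2 := by
          rw [div_le_iff₀ hu0]
          linarith
        have e4 : 2 / (l * u) ≤ 2 := by
          rw [div_le_iff₀ (by linarith)]
          linarith
        have e5 : E u - E (l * u) - W u =
            -(ρ * ((Sh lamh ch u - Real.log u - Real.eulerMascheroniConstant) -
              (Sh lamh ch (l * u) - Real.log (l * u) - Real.eulerMascheroniConstant))) := by
          rw [hWu, hEe, hEe]
          unfold Wn
          rw [Real.log_mul hl.ne' hu0.ne']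
          ring
        rw [e5, abs_neg, abs_mul]
        have e7 := abs_sub (Sh lamh ch u - Real.log u - Real.eulerMascheroniConstant)
          (Sh lamh ch (l * u) - Real.log (l * u) - Real.eulerMascheroniConstant)
        have e8 : 0 ≤ K' * Real.exp (-u) := by positivity
        nlinarith [abs_nonneg ρ]
      · have e1 := hb u
        have e2 := hb (l * u)
        have e3 := hw u
        have e4 : Real.exp (σ * u) ≤ Real.exp (σ * (1 / l)) :=
          Real.exp_le_exp.2 (mul_le_mul_of_nonneg_left h.le D.σ0.le)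
        have e5 : Real.exp (σ * (l * u)) ≤ Real.exp (σ * (1 / l)) := by
          refine Real.exp_le_exp.2 (mul_le_mul_of_nonneg_left ?_ D.σ0.le)
          nlinarith
        have e6 := mul_le_mul_of_nonneg_left e4 hC₁
        have e7 := mul_le_mul_of_nonneg_left e5 hC₁
        have e8 := mul_le_mul_of_nonneg_left e4 hC₂
        have e9 : |E u - E (l * u) - W u| ≤ K := by
          refine (abs_sub _ _).trans ?_
          have := abs_sub (E u) (E (l * u))
          rw [hK]
          linarith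
        have e10 : (1 : ℝ) ≤ Real.exp (1 / l) * Real.exp (-u) := by
          rw [← Real.exp_add]
          apply Real.one_le_exp
          linarith
        have e11 := mul_le_mul_of_nonneg_left e10 hK0
        have e12 := abs_nonneg ρ
        rw [hK']
        nlinarith
    have hx1 : ∀ᶠ x in 𝓝[>] (0 : ℝ), x * K' < 1 := by
      have h4 : Tendsto (fun x : ℝ => x * K') (𝓝[>] 0) (𝓝 0) := by
        have : Tendsto (fun x : ℝ => x * K') (𝓝 0) (𝓝 (0 * K')) :=
          (continuous_id.mul continuous_const).continuousAt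
        rw [zero_mul] at this
        exact this.mono_left nhdsWithin_le_nhds
      exact h4.eventually (gt_mem_nhds one_pos)
    obtain ⟨x₀, hx₀, hxx⟩ := mem_nhdsGT_iff_exists_Ioo_subset.1 (hWs.and hx1)
    refine ⟨x₀, hx₀, fun x hx0 hxx0 => ?_⟩
    obtain ⟨g1, g2⟩ := hxx ⟨hx0, hxx0⟩
    have g2 : x * K' < 1 := g2
    have g1 : |x * lap W x| ≤ 2 * (|M| + 1) := g1
    -- the change of variables
    have i1 := hEi x hx0
    have i2 := hEi (x / l) (by positivity)
    have i3 := hWi x hx0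
    unfold LInt at i1 i2 i3
    have i4 : IntegrableOn (fun u : ℝ => E (l * u) * Real.exp (-(x * u))) (Ioi 0) := by
      have h3 := (integrableOn_Ioi_comp_mul_left_iff
        (fun u : ℝ => E u * Real.exp (-(x / l * u))) 0 hl).2 (by rwa [mul_zero])
      refine h3.congr_fun (fun u _ => ?_) measurableSet_Ioi
      simp only
      congr 2
      field_simp
    have e1 : x * ∫ u in Ioi (0 : ℝ), E (l * u) * Real.exp (-(x * u)) = A (x / l) := by
      have h3 := integral_comp_mul_left_Ioi (fun u : ℝ => E u * Real.exp (-(x / l * u))) 0 hl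
      rw [mul_zero, smul_eq_mul] at h3
      have h4 : ∫ u in Ioi (0 : ℝ), E (l * u) * Real.exp (-(x * u)) =
          ∫ u in Ioi (0 : ℝ), E (l * u) * Real.exp (-(x / l * (l * u))) := by
        refine setIntegral_congr_fun measurableSet_Ioi fun u _ => ?_
        congr 2
        field_simp
      rw [h4, h3, hA]
      simp only
      unfold lap
      ring
    have e2 : A x - A (x / l) - x * lap W x =
        x * ∫ u in Ioi (0 : ℝ), (E u - E (l * u) - W u) * Real.exp (-(x * u)) := by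
      rw [← e1, hA]
      simp only
      unfold lap
      have i5 : IntegrableOn (fun u : ℝ => E u * Real.exp (-(x * u)) -
          E (l * u) * Real.exp (-(x * u))) (Ioi 0) := i1.sub i4
      have h5 : ∫ u in Ioi (0 : ℝ), (E u - E (l * u) - W u) * Real.exp (-(x * u)) =
          (∫ u in Ioi (0 : ℝ), E u * Real.exp (-(x * u))) -
          (∫ u in Ioi (0 : ℝ), E (l * u) * Real.exp (-(x * u))) -
          ∫ u in Ioi (0 : ℝ), W u * Real.exp (-(x * u)) := by
        rw [← integral_sub i1 i4, ← integral_sub i5 i3]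
        refine setIntegral_congr_fun measurableSet_Ioi fun u _ => ?_
        ring
      rw [h5]
      ring
    have e3 : |∫ u in Ioi (0 : ℝ), (E u - E (l * u) - W u) * Real.exp (-(x * u))| ≤
        4 * |ρ| / x + K' := by
      have j1 : IntegrableOn (fun u : ℝ => Real.exp (-(x * u))) (Ioi 0) := by
        have := integrableOn_exp_mul_Ioi (a := -x) (by linarith) 0
        simpa only [neg_mul] using this
      have j2 : IntegrableOn (fun u : ℝ => Real.exp (-(1 + x) * u)) (Ioi 0) :=
        integrableOn_exp_mul_Ioi (a := -(1 + x)) (by linarith) 0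
      have j3 : IntegrableOn (fun u : ℝ => 4 * |ρ| * Real.exp (-(x * u)) +
          K' * Real.exp (-(1 + x) * u)) (Ioi 0) := (j1.const_mul _).add (j2.const_mul _)
      have j4 : ∫ u in Ioi (0 : ℝ), Real.exp (-(x * u)) = 1 / x := by
        have h3 := integral_exp_mul_Ioi (a := -x) (by linarith) 0
        simp only [neg_mul] at h3
        rw [h3, neg_div_neg_eq]
        simp
      have j5 : ∫ u in Ioi (0 : ℝ), Real.exp (-(1 + x) * u) = 1 / (1 + x) := by
        have h3 := integral_exp_mul_Ioi (a := -(1 + x)) (by linarith) 0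
        rw [h3, neg_div_neg_eq]
        simp
      rw [← Real.norm_eq_abs]
      refine (norm_integral_le_of_norm_le j3 ?_).trans ?_
      · filter_upwards [ae_restrict_mem measurableSet_Ioi] with u hu
        rw [norm_mul, Real.norm_eq_abs, Real.norm_of_nonneg (Real.exp_pos _).le]
        have h6 := mul_le_mul_of_nonneg_right (herr u hu) (Real.exp_pos (-(x * u))).le
        refine h6.trans (le_of_eq ?_)
        have h7 : Real.exp (-(1 + x) * u) = Real.exp (-u) * Real.exp (-(x * u)) := by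
          rw [← Real.exp_add]
          congr 1
          ring
        rw [h7]
        ring
      · rw [integral_add (j1.const_mul _) (j2.const_mul _), integral_const_mul,
          integral_const_mul, j4, j5]
        have h8 : 1 / (1 + x) ≤ 1 := by
          rw [div_le_one (by linarith)]
          linarith
        have h9 := mul_le_mul_of_nonneg_left h8 hK'0
        have h10 : 4 * |ρ| * (1 / x) = 4 * |ρ| / x := by ring
        linarith
    have e4 : |A x - A (x / l) - x * lap W x| ≤ 4 * |ρ| + 1 := by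
      rw [e2, abs_mul, abs_of_pos hx0]
      have h6 := mul_le_mul_of_nonneg_left e3 hx0.le
      have h7 : x * (4 * |ρ| / x + K') = 4 * |ρ| + x * K' := by field_simp
      linarith
    have e5 : |A x - A (x / l)| ≤ |A x - A (x / l) - x * lap W x| + |x * lap W x| := by
      have := abs_add_le (A x - A (x / l) - x * lap W x) (x * lap W x)
      rwa [sub_add_cancel] at this
    rw [hC₀]
    linarith
  -- conclusion
  have hH : Tendsto (fun x : ℝ => Real.log (1 - Real.exp (-x)) / Real.log x) (𝓝[>] 0) (𝓝 1) := by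
    have h1 : Tendsto (fun x : ℝ => 1 + (Real.log (1 - Real.exp (-x)) - Real.log x) / Real.log x)
        (𝓝[>] 0) (𝓝 (1 + 0)) := by
      refine Tendsto.const_add 1 ?_
      have h2 : Tendsto (fun x : ℝ => Real.log (1 - Real.exp (-x)) - Real.log x) (𝓝[>] 0)
          (𝓝 0) := by
        refine squeeze_zero_norm' ?_ (tendsto_id.mono_left nhdsWithin_le_nhds)
        filter_upwards [self_mem_nhdsWithin] with x hx
        rw [Real.norm_eq_abs]
        exact log_one_sub hx
      exact h2.div_atBot Real.tendsto_log_nhdsGT_zero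
    rw [add_zero] at h1
    refine h1.congr' ?_
    have h3 : ∀ᶠ x in 𝓝[>] (0 : ℝ), Real.log x < 0 :=
      Real.tendsto_log_nhdsGT_zero.eventually_lt_atBot 0
    filter_upwards [h3] with x hx
    rw [sub_div, div_self hx.ne]
    ring
  have h2 := (hH.const_mul ρ).sub hlim
  rw [mul_one, sub_zero] at h2
  refine h2.congr' ?_
  filter_upwards [self_mem_nhdsWithin] with x hx
  have hx0 : 0 < x := hx
  have i1 := hint x hx0
  have i2 := lint_h hx0
  unfold LInt at i1 i2
  have h3 : lap E x = lap (Sh lam c) x - ρ * lap (Sh lamh ch) x := by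
    unfold lap
    rw [← integral_const_mul, ← integral_sub i1 (i2.const_mul ρ)]
    refine setIntegral_congr_fun measurableSet_Ioi fun u _ => ?_
    rw [hEe]
    ring
  have h4 := lap_h hx0
  rw [hA]
  simp only
  rw [h3, ← mul_div_assoc, ← sub_div]
  congr 1
  have h5 : x * (lap (Sh lam c) x - ρ * lap (Sh lamh ch) x) =
      x * lap (Sh lam c) x - ρ * (x * lap (Sh lamh ch) x) := by ring
  rw [h5, h4]
  ring

end Dirichlet

section System

variable {X : Type} {d : ℕ} {N : X → ℕ} {α : X → Fin d → ℂ}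

/-- `∫_e^Y |f| dy/y = O(Y^(s+ε))` for every `ε > 0` -/
def GY (f : ℝ → ℝ) (s : ℝ) : Prop := ∀ ε : ℝ, 0 < ε → ∃ B : ℝ, ∀ᶠ Y : ℝ in atTop,
  ∫ y in Real.exp 1..Y, |f y| / y ≤ B * Y ^ (s + ε)

theorem gy_close {f g : ℝ → ℝ} (hf : BM f) (hg : BM g) {K : ℝ}
    (h : ∀ y : ℝ, Real.exp 1 ≤ y → |f y + g y| ≤ K) {s : ℝ} (hs : 0 ≤ s) (hgy : GY g s) :
    GY f s := by
  intro ε hε
  obtain ⟨B, hB⟩ := hgy ε hε
  have hK0 : 0 ≤ K := (abs_nonneg _).trans (h _ le_rfl)
  have hse : 0 < s + ε := by linarith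
  refine ⟨B + K / (s + ε), ?_⟩
  filter_upwards [hB, eventually_ge_atTop (Real.exp 1)] with Y h1 h2
  have hY0 : 0 < Y := (Real.exp_pos 1).trans_le h2
  have h3 := mean_close hf hg h h2
  have h4 : Real.log Y ≤ Y ^ (s + ε) / (s + ε) := Real.log_le_rpow_div hY0.le hse
  have h5 : K * (Real.log Y - 1) ≤ K * (Y ^ (s + ε) / (s + ε)) := by
    refine mul_le_mul_of_nonneg_left ?_ hK0
    linarith
  calc _ ≤ B * Y ^ (s + ε) + K * (Y ^ (s + ε) / (s + ε)) := by linarith
    _ = _ := by ring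

theorem gy_iff_gr {f φ : ℝ → ℝ} (h : ∀ y : ℝ, Real.exp 1 ≤ y → |f y| = |φ (Real.log y)|) (s : ℝ) :
    GY f s ↔ Gr φ s := by
  unfold GY Gr
  refine forall_congr' fun ε => forall_congr' fun _ => exists_congr fun B => ?_
  rw [eventually_exp_iff (f := fun Y => ∫ y in Real.exp 1..Y, |f y| / y ≤ B * Y ^ (s + ε))]
  refine eventually_congr ?_
  filter_upwards [eventually_ge_atTop 1] with T hT
  have h5 : ∫ y in Real.exp 1..Real.exp T, |f y| / y = ∫ u in (1 : ℝ)..T, |φ u| := by
    rw [← cov_ii _ hT]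
    refine intervalIntegral.integral_congr fun Y hY => ?_
    rw [uIcc_of_le (Real.exp_le_exp.2 hT)] at hY
    show |f Y| / Y = |φ (Real.log Y)| / Y
    rw [h Y hY.1]
  rw [h5, ← Real.exp_mul, mul_comm T]

/-- **One window and the product: the same growth.** -/
theorem window_gy (E : Sys N α) {l : ℝ} (hl : 0 < l) (hl1 : l < 1) {s : ℝ} (hs : 0 ≤ s) :
    GY (WV N α 0 l) s ↔ GY (Pv N α) s := by
  have := E.cnt
  obtain ⟨e, he⟩ := Countable.exists_injective_nat (X × ℕ)
  have D := dat' E he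
  obtain ⟨M, -, hM⟩ := close_w2 E
  obtain ⟨K, hK⟩ := (hM 0 l hl hl1).2
  obtain ⟨K', hK'⟩ := close E
  have a1 : GY (WV N α 0 l) s ↔ GY (WL N α 0 l) s :=
    ⟨fun h => gy_close (bm_wl E 0 hl1) (bm_wv E 0 hl1) (fun y hy => by
      rw [add_comm]
      exact hK y hy) hs h, fun h => gy_close (bm_wv E 0 hl1) (bm_wl E 0 hl1) hK hs h⟩
  have a2 : GY (Pv N α) s ↔ GY (Pl N α) s :=
    ⟨fun h => gy_close (bm_pl' E) (bm_pv E) (fun y hy => by
      rw [add_comm]
      exact hK' y hy) hs h, fun h => gy_close (bm_pv E) (bm_pl' E) hK' hs h⟩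
  have a3 : GY (WL N α 0 l) s ↔ Gr (Wn (lamS N e) (cS' N α e) 0 l) s :=
    gy_iff_gr (fun y hy => by rw [wl_eq E he 0 l ((Real.exp_pos 1).trans_le hy), abs_neg]) s
  have a4 : GY (Pl N α) s ↔ Gr (Sh (lamS N e) (cS' N α e)) s :=
    gy_iff_gr (fun y hy => by
      rw [sh_eq E he, Real.exp_log ((Real.exp_pos 1).trans_le hy), abs_neg]) s
  have a5 : Gr (Sh (lamS N e) (cS' N α e)) s ↔
      ∀ x : ℝ, s < x → LInt (Sh (lamS N e) (cS' N α e)) x := by
    constructor
    · intro h x hx
      refine lint_of_gr (sh_meas D) (C := ∑' n, |cS' N α e n| * Real.exp (-(1 * lamS N e n)))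
        (σ := 1) (fun u => ?_) hs h hx
      rw [mul_comm]
      exact sh_le D u
    · exact gr_of_lint hs
  rw [a1, a3, a2, a4, a5]
  exact gr_window D hl hl1 hs

theorem datT (E : Sys N α) {e : X × ℕ → ℕ} (he : Function.Injective e) {σ : ℝ} (hσ : 1 / 2 < σ) :
    Dat (lamS N e) (cS' N α e) (Real.log 2) σ where
  δ0 := (E.datS he hσ).δ0
  σ0 := (E.datS he hσ).σ0
  lam_ge := (E.datS he hσ).lam_ge
  sum := by
    refine (E.datS he hσ).sum.congr fun n => ?_
    unfold cS'
    rw [abs_neg]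

/-- the continuation -/
theorem cont_sys (E : Sys N α) (hreal : ∀ v k, (∑ i, zv N α v i ^ k).im = 0) {e : X × ℕ → ℕ}
    (he : Function.Injective e) {s : ℝ}
    (h : ∀ x : ℝ, s < x → LInt (Sh (lamS N e) (cS' N α e)) x) :
    ∃ F : ℂ → ℂ, (∀ w : ℂ, s < w.re → DifferentiableAt ℂ F w ∧ F w ≠ 0) ∧
      (∀ w : ℂ, 1 / 2 < w.re → F w = LE N α w) ∧
      ∀ w : ℂ, F w = exp (-(w * lapC (Sh (lamS N e) (cS' N α e)) w)) := by
  obtain ⟨F, h1, -, h3⟩ := cont_gt (dat' E he) h
  refine ⟨F, h1, fun w hw => ?_, h3⟩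
  obtain ⟨σ, hσ1, hσ2⟩ := exists_between hw
  obtain ⟨F', -, h2', h3'⟩ := cont_gt (datT E he hσ1) h
  have h4 : F w = F' w := by rw [h3, h3']
  rw [h4, h2' w hσ2, DD_neg, E.exp_DD hreal he hw]

/-- **The product continues the Euler product.** -/
theorem cont_gy (E : Sys N α) (hreal : ∀ v k, (∑ i, zv N α v i ^ k).im = 0) {s : ℝ} (hs : 0 ≤ s)
    (h : GY (Pv N α) s) :
    ∃ F : ℂ → ℂ, (∀ w : ℂ, s < w.re → DifferentiableAt ℂ F w ∧ F w ≠ 0) ∧
      ∀ w : ℂ, 1 / 2 < w.re → F w = LE N α w := by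
  have := E.cnt
  obtain ⟨e, he⟩ := Countable.exists_injective_nat (X × ℕ)
  have D := dat' E he
  obtain ⟨K', hK'⟩ := close E
  have h1 : GY (Pl N α) s := gy_close (bm_pl' E) (bm_pv E) (fun y hy => by
      rw [add_comm]
      exact hK' y hy) hs h
  have h2 : Gr (Sh (lamS N e) (cS' N α e)) s := (gy_iff_gr (fun y hy => by
      rw [sh_eq E he, Real.exp_log ((Real.exp_pos 1).trans_le hy), abs_neg]) s).1 h1
  have h3 : ∀ x : ℝ, s < x → LInt (Sh (lamS N e) (cS' N α e)) x := by
    intro x hx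
    refine lint_of_gr (sh_meas D) (C := ∑' n, |cS' N α e n| * Real.exp (-(1 * lamS N e n)))
        (σ := 1) (fun u => ?_) hs h2 hx
    rw [mul_comm]
    exact sh_le D u
  obtain ⟨F, h4, h5, -⟩ := cont_sys E hreal he h3
  exact ⟨F, h4, h5⟩

/-- the trivial growth -/
theorem gy_half (E : Sys N α) : GY (Pv N α) (1 / 2) := by
  have := E.cnt
  obtain ⟨e, he⟩ := Countable.exists_injective_nat (X × ℕ)
  obtain ⟨K', hK'⟩ := close E
  refine gy_close (bm_pv E) (bm_pl' E) hK' (by norm_num) ?_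
  refine (gy_iff_gr (φ := Sh (lamS N e) (cS' N α e)) (fun y hy => by
      rw [sh_eq E he, Real.exp_log ((Real.exp_pos 1).trans_le hy), abs_neg]) _).2 ?_
  refine gr_of_lint (by norm_num) fun x hx => ?_
  obtain ⟨σ, hσ1, hσ2⟩ := exists_between hx
  have := er_int (datT E he hσ1) 0 0 hσ2
  rwa [er_eq] at this

/-- the means of functions with a difference bounded by `M₁` far out -/
theorem split_close {f g : ℝ → ℝ} (bf : BM f) (bg : BM g) {K M₁ Y₀ : ℝ} (hM₁ : 0 ≤ M₁)
    (hY₀e : Real.exp 1 ≤ Y₀) (hK : ∀ y : ℝ, Real.exp 1 ≤ y → |f y + g y| ≤ K)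
    (hM : ∀ y : ℝ, Y₀ ≤ y → |f y + g y| ≤ M₁) : ∀ᶠ Y : ℝ in atTop,
      ∫ y in Real.exp 1..Y, |f y| / y ≤ (∫ y in Real.exp 1..Y, |g y| / y) +
        (M₁ + 1) * Real.log Y := by
  have hK0 : 0 ≤ K := (abs_nonneg _).trans (hK _ le_rfl)
  have h3 : ∀ᶠ Y : ℝ in atTop, K * (Real.log Y₀ - 1) ≤ Real.log Y :=
    Real.tendsto_log_atTop.eventually_ge_atTop _
  filter_upwards [h3, eventually_ge_atTop Y₀] with Y h5 h6
  have hYe : Real.exp 1 ≤ Y := hY₀e.trans h6
  have i1 := bf.li.abs.div
  have i2 := bg.li.abs.div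
  have j1 : IntervalIntegrable (fun y => |f y| / y) volume Y₀ Y :=
    (i1 Y₀ hY₀e).symm.trans (i1 Y hYe)
  have j2 : IntervalIntegrable (fun y => |g y| / y) volume Y₀ Y :=
    (i2 Y₀ hY₀e).symm.trans (i2 Y hYe)
  have j3 : IntervalIntegrable (fun y : ℝ => M₁ * (1 / y)) volume Y₀ Y := by
    refine ContinuousOn.intervalIntegrable ?_
    rw [uIcc_of_le h6]
    refine continuousOn_const.mul (continuousOn_const.div continuousOn_id fun y hy => ?_)
    exact ((Real.exp_pos 1).trans_le (hY₀e.trans hy.1)).ne'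
  have e1 : ∫ y in Real.exp 1..Y₀, |f y| / y ≤
      (∫ y in Real.exp 1..Y₀, |g y| / y) + K * (Real.log Y₀ - 1) :=
    mean_close bf bg hK hY₀e
  have e2 : ∫ y in Y₀..Y, |f y| / y ≤ (∫ y in Y₀..Y, |g y| / y) + M₁ * Real.log Y := by
    have h7 : ∫ y in Y₀..Y, |f y| / y ≤ ∫ y in Y₀..Y, (|g y| / y + M₁ * (1 / y)) := by
      refine intervalIntegral.integral_mono_on h6 j1 (j2.add j3) fun y hy => ?_
      have hy0 : 0 < y := (Real.exp_pos 1).trans_le (hY₀e.trans hy.1)
      rw [mul_one_div, ← add_div]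
      refine div_le_div_of_nonneg_right ?_ hy0.le
      have h8 := hM y hy.1
      have h9 : f y = (f y + g y) - g y := by ring
      have h10 := abs_sub (f y + g y) (g y)
      rw [← h9] at h10
      linarith
    rw [intervalIntegral.integral_add j2 j3, intervalIntegral.integral_const_mul,
      integral_one_div_of_pos ((Real.exp_pos 1).trans_le hY₀e) ((Real.exp_pos 1).trans_le hYe),
      Real.log_div ((Real.exp_pos 1).trans_le hYe).ne' ((Real.exp_pos 1).trans_le hY₀e).ne'] at h7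
    have h8 : 0 ≤ Real.log Y₀ := by
      have := one_le_log hY₀e
      linarith
    nlinarith [mul_nonneg hM₁ h8]
  have e3 := intervalIntegral.integral_add_adjacent_intervals (i1 Y₀ hY₀e) j1
  have e4 := intervalIntegral.integral_add_adjacent_intervals (i2 Y₀ hY₀e) j2
  rw [← e3, ← e4]
  linarith

/-- **Uniformly bounded windows: continuation and radial order.** -/
theorem cont_unif (E : Sys N α) (hreal : ∀ v k, (∑ i, zv N α v i ^ k).im = 0) {ρ M : ℝ}
    (h : ∀ l : ℝ, 0 < l → l < 1 → ∀ᶠ Y : ℝ in atTop,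
      ∫ y in Real.exp 1..Y, |WV N α ρ l y| / y ≤ M * Real.log Y) :
    ∃ F : ℂ → ℂ, (∀ w : ℂ, 0 < w.re → DifferentiableAt ℂ F w ∧ F w ≠ 0) ∧
      (∀ w : ℂ, 1 / 2 < w.re → F w = LE N α w) ∧
      Tendsto (fun x : ℝ => Real.log ‖F x‖ / Real.log x) (𝓝[>] 0) (𝓝 ρ) := by
  have := E.cnt
  obtain ⟨e, he⟩ := Countable.exists_injective_nat (X × ℕ)
  have D := dat' E he
  obtain ⟨M₁, hM₁, hM₂⟩ := close_w2 E
  have hwn : ∀ l : ℝ, 0 < l → l < 1 → ∀ᶠ T : ℝ in atTop,
      ∫ u in (1 : ℝ)..T, |Wn (lamS N e) (cS' N α e) ρ l u| ≤ (M + (2 * M₁ + 1)) * T := by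
    intro l hl hl1
    obtain ⟨g1, K, hK⟩ := hM₂ ρ l hl hl1
    have hY₀e : Real.exp 1 ≤ Real.exp (1 / l) := by
      refine Real.exp_le_exp.2 ?_
      rw [le_div_iff₀ hl]
      linarith
    have h1 := split_close (bm_wl E ρ hl1) (bm_wv E ρ hl1) (by linarith : 0 ≤ 2 * M₁) hY₀e
      (fun y hy => by
        rw [add_comm]
        exact hK y hy) (fun y hy => by
        rw [add_comm]
        exact g1 y hy)
    rw [← wl_bdd_iff E he ρ l (M + (2 * M₁ + 1))]
    filter_upwards [h1, h l hl hl1] with Y h2 h3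
    linarith
  have hg : Gr (Wn (lamS N e) (cS' N α e) 0 (1 / 2)) 0 := by
    intro ε hε
    refine ⟨(M + (2 * M₁ + 1) + |(0 - ρ) * Real.log (1 / 2)|) / ε, ?_⟩
    filter_upwards [hwn (1 / 2) (by norm_num) (by norm_num), eventually_ge_atTop 1] with T h1 h2
    have h3 := wn_shift D 0 ρ (l := 1 / 2) (by norm_num) h2
    have h4 : T ≤ Real.exp ((0 + ε) * T) / ε := by
      rw [le_div_iff₀ hε, zero_add]
      have := Real.add_one_le_exp (ε * T)
      linarith
    have h5 : 0 ≤ M + (2 * M₁ + 1) + |(0 - ρ) * Real.log (1 / 2)| := by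
      have h6 : 0 ≤ ∫ u in (1 : ℝ)..T, |Wn (lamS N e) (cS' N α e) ρ (1 / 2) u| :=
        intervalIntegral.integral_nonneg h2 fun u _ => abs_nonneg _
      have h7 : 0 ≤ M + (2 * M₁ + 1) := by
        have := h6.trans h1
        exact nonneg_of_mul_nonneg_left this (by linarith)
      have := abs_nonneg ((0 - ρ) * Real.log (1 / 2))
      linarith
    calc _ ≤ (M + (2 * M₁ + 1) + |(0 - ρ) * Real.log (1 / 2)|) * T := by linarith
      _ ≤ (M + (2 * M₁ + 1) + |(0 - ρ) * Real.log (1 / 2)|) * (Real.exp ((0 + ε) * T) / ε) :=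
        mul_le_mul_of_nonneg_left h4 h5
      _ = _ := by ring
  have hint := (gr_window D (by norm_num : (0 : ℝ) < 1 / 2) (by norm_num) le_rfl).1 hg
  obtain ⟨F, h4, h5, h6⟩ := cont_sys E hreal he hint
  refine ⟨F, h4, h5, ?_⟩
  refine (radial D hint hwn).congr fun x => ?_
  rw [h6, Complex.norm_exp, Real.log_exp, lapC_ofReal, ← Complex.ofReal_mul, ← Complex.ofReal_neg,
    Complex.ofReal_re]

end System

end Pool.Agent.Q5.MS
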